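import Pool.Agent.H83.RBDefs

/-!
# From cliques to red-blue cuts
-/

set_option autoImplicit false

namespace Pool.Agent.H83

namespace Gadget

variable (M : ℕ)

/-- Number of vertices of the gadget graph. -/
def NV : ℕ := 2 + M + M * M

/-- The source. -/
def v0 : Fin (NV M) := ⟨0, by unfold NV; omega⟩
/-- The sink. -/
def v1 : Fin (NV M) := ⟨1, by unfold NV; omega⟩
/-- The vertex attached to a vertex of the given graph. -/
def vu (u : Fin M) : Fin (NV M) := ⟨2 + u.val, by
  have := u.isLt; have := Nat.zero_le (M * M); unfold NV; omega⟩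
/-- The vertex attached to a pair of vertices of the given graph. -/
def vw (e : Fin M × Fin M) : Fin (NV M) := ⟨2 + M + (e.1.val * M + e.2.val), by
  have h1 := e.1.isLt
  have h2 := e.2.isLt
  have h3 : (e.1.val + 1) * M ≤ M * M := Nat.mul_le_mul_right M h1
  rw [Nat.add_mul] at h3
  unfold NV
  omega⟩

variable {M}

theorem vw_inj {e e' : Fin M × Fin M} (h : vw M e = vw M e') : e = e' := by
  have h1 : 2 + M + (e.1.val * M + e.2.val) = 2 + M + (e'.1.val * M + e'.2.val) :=
    congrArg Fin.val h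
  have h2 := e.2.isLt
  have h2' := e'.2.isLt
  have hM : 0 < M := by omega
  have h3 : e.1.val * M + e.2.val = e'.1.val * M + e'.2.val := by omega
  have h4 : (e.1.val * M + e.2.val) / M = e.1.val := by
    rw [Nat.add_comm, Nat.add_mul_div_right _ _ hM, Nat.div_eq_of_lt h2, Nat.zero_add]
  have h4' : (e'.1.val * M + e'.2.val) / M = e'.1.val := by
    rw [Nat.add_comm, Nat.add_mul_div_right _ _ hM, Nat.div_eq_of_lt h2', Nat.zero_add]
  have h5 : e.1.val = e'.1.val := by rw [← h4, ← h4', h3]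
  rw [h5] at h3
  have h6 : e.2.val = e'.2.val := by omega
  exact Prod.ext (Fin.ext h5) (Fin.ext h6)

theorem vu_inj {u u' : Fin M} (h : vu M u = vu M u') : u = u' := by
  have h1 : 2 + u.val = 2 + u'.val := congrArg Fin.val h
  exact Fin.ext (by omega)

theorem v0_ne_v1 : v0 M ≠ v1 M := by intro h; simp [v0, v1, Fin.ext_iff] at h
theorem v0_ne_vu (u : Fin M) : v0 M ≠ vu M u := by
  intro h; simp only [v0, vu, Fin.ext_iff] at h; omega
theorem v1_ne_vu (u : Fin M) : v1 M ≠ vu M u := by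
  intro h; simp only [v1, vu, Fin.ext_iff] at h; omega
theorem v0_ne_vw (e : Fin M × Fin M) : v0 M ≠ vw M e := by
  intro h; simp only [v0, vw, Fin.ext_iff] at h; omega
theorem v1_ne_vw (e : Fin M × Fin M) : v1 M ≠ vw M e := by
  have := e.1.isLt
  intro h; simp only [v1, vw, Fin.ext_iff] at h; omega
theorem vu_ne_vw (u : Fin M) (e : Fin M × Fin M) : vu M u ≠ vw M e := by
  have := u.isLt
  intro h; simp only [vu, vw, Fin.ext_iff] at h; omega

/-- The three red neighbours of the vertex of a pair. -/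
def Nb (e : Fin M × Fin M) (b : Fin (NV M)) : Prop :=
  b = v0 M ∨ b = vu M e.1 ∨ b = vu M e.2

theorem Nb.ne {e e' : Fin M × Fin M} {b : Fin (NV M)} (h : Nb e b) : b ≠ vw M e' := by
  rcases h with h | h | h <;> subst h
  · exact v0_ne_vw _
  · exact vu_ne_vw _ _
  · exact vu_ne_vw _ _

/-- The red graph. -/
def redG (E : Finset (Fin M × Fin M)) : SimpleGraph (Fin (NV M)) where
  Adj a b := ∃ e ∈ E, (a = vw M e ∧ Nb e b) ∨ (b = vw M e ∧ Nb e a)
  symm := ⟨by
    rintro a b ⟨e, he, h⟩
    exact ⟨e, he, h.symm⟩⟩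
  loopless := ⟨by
    rintro a ⟨e, he, ⟨h, h'⟩ | ⟨h, h'⟩⟩ <;> exact h'.ne h⟩

/-- The blue graph. -/
def blueG (M : ℕ) : SimpleGraph (Fin (NV M)) where
  Adj a b := ∃ u : Fin M, (a = v1 M ∧ b = vu M u) ∨ (b = v1 M ∧ a = vu M u)
  symm := ⟨by
    rintro a b ⟨u, h⟩
    exact ⟨u, h.symm⟩⟩
  loopless := ⟨by
    rintro a ⟨u, ⟨h, h'⟩ | ⟨h, h'⟩⟩ <;> exact v1_ne_vu u (h.symm.trans h')⟩

theorem disj (E : Finset (Fin M × Fin M)) : Disjoint (redG E) (blueG M) := by
  rw [SimpleGraph.disjoint_left]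
  rintro a b ⟨e, he, h⟩ ⟨u, h'⟩
  rcases h with ⟨h1, h2⟩ | ⟨h1, h2⟩ <;> rcases h' with ⟨h3, h4⟩ | ⟨h3, h4⟩
  · exact v1_ne_vw e (h3.symm.trans h1)
  · exact vu_ne_vw u e (h4.symm.trans h1)
  · exact vu_ne_vw u e (h4.symm.trans h1)
  · exact v1_ne_vw e (h3.symm.trans h1)

/-- The instance of the cut problem attached to a graph on `Fin M` (given by its edges `(u, v)` with
`u < v`) and a number `k`. -/
def inst (E : Finset (Fin M × Fin M)) (k : ℕ) : RBInstance where
  n := NV M
  red := redG E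
  blue := blueG M
  disj := disj E
  s := v0 M
  t := v1 M
  hst := v0_ne_v1
  r := E.card - k * (k - 1) / 2
  b := k

/-- Number of pairs `u < v` in a finite set. -/
theorem two_mul_card_lt (S : Finset (Fin M)) :
    2 * ((S ×ˢ S).filter (fun e => e.1 < e.2)).card = S.card * (S.card - 1) := by
  have h1 : (S.offDiag).card = S.card * S.card - S.card := Finset.offDiag_card S
  have h2 : S.offDiag = (S ×ˢ S).filter (fun e => e.1 < e.2) ∪
      (S ×ˢ S).filter (fun e => e.2 < e.1) := by
    ext ⟨a, b⟩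
    simp only [Finset.mem_offDiag, Finset.mem_union, Finset.mem_filter, Finset.mem_product]
    constructor
    · rintro ⟨ha, hb, hab⟩
      rcases lt_or_gt_of_ne hab with h | h
      · exact Or.inl ⟨⟨ha, hb⟩, h⟩
      · exact Or.inr ⟨⟨ha, hb⟩, h⟩
    · rintro (⟨⟨ha, hb⟩, h⟩ | ⟨⟨ha, hb⟩, h⟩)
      · exact ⟨ha, hb, h.ne⟩
      · exact ⟨ha, hb, h.ne'⟩
  have h3 : Disjoint ((S ×ˢ S).filter (fun e => e.1 < e.2))
      ((S ×ˢ S).filter (fun e => e.2 < e.1)) := by
    rw [Finset.disjoint_left]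
    intro e he he'
    simp only [Finset.mem_filter] at he he'
    exact lt_asymm he.2 he'.2
  have h4 : ((S ×ˢ S).filter (fun e => e.2 < e.1)).card
      = ((S ×ˢ S).filter (fun e => e.1 < e.2)).card := by
    refine Finset.card_bij' (fun e _ => (e.2, e.1)) (fun e _ => (e.2, e.1)) ?_ ?_ ?_ ?_
    · intro e he
      simp only [Finset.mem_filter, Finset.mem_product] at he ⊢
      exact ⟨⟨he.1.2, he.1.1⟩, he.2⟩
    · intro e he
      simp only [Finset.mem_filter, Finset.mem_product] at he ⊢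
      exact ⟨⟨he.1.2, he.1.1⟩, he.2⟩
    · intro e _; rfl
    · intro e _; rfl
  rw [h2, Finset.card_union_of_disjoint h3, h4] at h1
  rw [Nat.mul_sub, Nat.mul_one]
  omega

theorem even_mul_pred (k : ℕ) : 2 * (k * (k - 1) / 2) = k * (k - 1) := by
  apply Nat.mul_div_cancel'
  rcases Nat.even_or_odd k with h | h
  · exact (h.mul_right _).two_dvd
  · have : Even (k - 1) := Nat.Odd.sub_odd h (by decide)
    exact (this.mul_left _).two_dvd

theorem mul_pred_lt {a b : ℕ} (h : a < b) (hb : 2 ≤ b) : a * (a - 1) < b * (b - 1) := by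
  rcases Nat.eq_zero_or_pos a with rfl | ha
  · simp only [Nat.zero_mul]
    exact Nat.mul_pos (by omega) (by omega)
  · calc a * (a - 1) ≤ a * (b - 1) := Nat.mul_le_mul_left _ (by omega)
      _ < b * (b - 1) := Nat.mul_lt_mul_of_pos_right h (by omega)

theorem hasCut_iff (E : Finset (Fin M × Fin M)) (hE : ∀ e ∈ E, e.1 < e.2) (k : ℕ) (hk : 2 ≤ k)
    (hkE : k * (k - 1) / 2 ≤ E.card) :
    (inst E k).HasCut ↔ ∃ S : Finset (Fin M), S.card = k ∧
      ∀ u ∈ S, ∀ v ∈ S, u < v → (u, v) ∈ E := by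
  classical
  constructor
  · rintro ⟨X, hs, ht, hr, hb⟩
    change Set (Fin (NV M)) at X
    change v0 M ∈ X at hs
    change v1 M ∉ X at ht
    change (cutEdges (redG E) X).ncard ≤ E.card - k * (k - 1) / 2 at hr
    change (cutEdges (blueG M) X).ncard ≤ k at hb
    set S : Finset (Fin M) := Finset.univ.filter (fun u => vu M u ∈ X) with hS
    have hmem : ∀ u, u ∈ S ↔ vu M u ∈ X := fun u => by simp [hS]
    -- blue edges
    have hSk : S.card ≤ k := by
      refine le_trans ?_ hb
      rw [← Set.ncard_coe_finset S]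
      refine Set.ncard_le_ncard_of_injOn (fun u => s(vu M u, v1 M)) ?_ ?_ (Set.toFinite _)
      · intro u hu
        have hu' : vu M u ∈ X := (hmem u).1 (by simpa using hu)
        exact ⟨vu M u, v1 M, hu', ht, ⟨u, Or.inr ⟨rfl, rfl⟩⟩, rfl⟩
      · intro u _ u' _ h
        have h' : s(vu M u, v1 M) = s(vu M u', v1 M) := h
        rw [Sym2.eq_iff] at h'
        rcases h' with ⟨h1, _⟩ | ⟨h1, _⟩
        · exact vu_inj h1
        · exact absurd h1.symm (v1_ne_vu u)
    -- red edges
    have hbad : (E.filter (fun e => ¬(e.1 ∈ S ∧ e.2 ∈ S))).card ≤ (cutEdges (redG E) X).ncard := by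
      rw [← Set.ncard_coe_finset]
      refine Set.ncard_le_ncard_of_injOn (fun e =>
        if vw M e ∈ X then (if vu M e.1 ∈ X then s(vw M e, vu M e.2) else s(vw M e, vu M e.1))
        else s(vw M e, v0 M)) ?_ ?_ (Set.toFinite _)
      · intro e he
        simp only [Finset.coe_filter, Set.mem_ofPred_eq, hmem] at he
        obtain ⟨heE, he⟩ := he
        by_cases hw : vw M e ∈ X
        · by_cases h1 : vu M e.1 ∈ X
          · simp only [hw, h1, if_true]
            refine ⟨vw M e, vu M e.2, hw, fun h2 => he ⟨h1, h2⟩,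
              ⟨e, heE, Or.inl ⟨rfl, Or.inr (Or.inr rfl)⟩⟩, rfl⟩
          · simp only [hw, h1, if_true, if_false]
            exact ⟨vw M e, vu M e.1, hw, h1, ⟨e, heE, Or.inl ⟨rfl, Or.inr (Or.inl rfl)⟩⟩, rfl⟩
        · simp only [hw, if_false]
          exact ⟨v0 M, vw M e, hs, hw, ⟨e, heE, Or.inr ⟨rfl, Or.inl rfl⟩⟩, Sym2.eq_swap⟩
      · -- injectivity: each value is `s(vw e, b)` with `b` a neighbour
        have key : ∀ e : Fin M × Fin M, ∃ b, Nb e b ∧
            (if vw M e ∈ X then (if vu M e.1 ∈ X then s(vw M e, vu M e.2) else s(vw M e, vu M e.1))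
              else s(vw M e, v0 M)) = s(vw M e, b) := by
          intro e
          by_cases hw : vw M e ∈ X
          · by_cases h1 : vu M e.1 ∈ X
            · exact ⟨_, Or.inr (Or.inr rfl), by simp [hw, h1]⟩
            · exact ⟨_, Or.inr (Or.inl rfl), by simp [hw, h1]⟩
          · exact ⟨_, Or.inl rfl, by simp [hw]⟩
        intro e _ e' _ h
        obtain ⟨b, hb, hbe⟩ := key e
        obtain ⟨b', hb', hbe'⟩ := key e'
        have h' : s(vw M e, b) = s(vw M e', b') := by
          rw [← hbe, ← hbe']; exact h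
        rw [Sym2.eq_iff] at h'
        rcases h' with ⟨h1, _⟩ | ⟨h1, _⟩
        · exact vw_inj h1
        · exact absurd h1.symm hb'.ne
    have hsplit := Finset.card_filter_add_card_filter_not (s := E)
      (p := fun e => e.1 ∈ S ∧ e.2 ∈ S)
    have hgood : E.filter (fun e => e.1 ∈ S ∧ e.2 ∈ S) ⊆ (S ×ˢ S).filter (fun e => e.1 < e.2) := by
      intro e he
      simp only [Finset.mem_filter, Finset.mem_product] at he ⊢
      exact ⟨he.2, hE e he.1⟩
    have hcard := Finset.card_le_card hgood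
    have h2 := two_mul_card_lt S
    have h3 := even_mul_pred k
    have hSeq : S.card = k := by
      by_contra hne
      have := mul_pred_lt (lt_of_le_of_ne hSk hne) hk
      omega
    refine ⟨S, hSeq, ?_⟩
    rw [hSeq] at h2
    have heq : E.filter (fun e => e.1 ∈ S ∧ e.2 ∈ S) = (S ×ˢ S).filter (fun e => e.1 < e.2) := by
      apply Finset.eq_of_subset_of_card_le hgood
      omega
    intro u hu v hv huv
    have : (u, v) ∈ (S ×ˢ S).filter (fun e => e.1 < e.2) := by
      simp [hu, hv, huv]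
    rw [← heq] at this
    exact (Finset.mem_filter.1 this).1
  · rintro ⟨S, hSk, hS⟩
    set X : Set (Fin (NV M)) := {a | a = v0 M ∨ (∃ u ∈ S, a = vu M u) ∨
      (∃ e ∈ E, (e.1 ∈ S ∨ e.2 ∈ S) ∧ a = vw M e)} with hX
    have hXu : ∀ u, vu M u ∈ X ↔ u ∈ S := by
      intro u
      constructor
      · rintro (h | ⟨u', hu', h⟩ | ⟨e, _, _, h⟩)
        · exact absurd h.symm (v0_ne_vu u)
        · rwa [vu_inj h]
        · exact absurd h (vu_ne_vw u e)
      · intro h; exact Or.inr (Or.inl ⟨u, h, rfl⟩)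
    have hXw : ∀ e ∈ E, (vw M e ∈ X ↔ (e.1 ∈ S ∨ e.2 ∈ S)) := by
      intro e he
      constructor
      · rintro (h | ⟨u', _, h⟩ | ⟨e', _, he', h⟩)
        · exact absurd h.symm (v0_ne_vw e)
        · exact absurd h.symm (vu_ne_vw u' e)
        · rwa [vw_inj h]
      · intro h; exact Or.inr (Or.inr ⟨e, he, h, rfl⟩)
    have hX1 : v1 M ∉ X := by
      rintro (h | ⟨u', _, h⟩ | ⟨e', _, _, h⟩)
      · exact v0_ne_v1 h.symm
      · exact v1_ne_vu u' h
      · exact v1_ne_vw e' h
    have hX0 : v0 M ∈ X := Or.inl rfl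
    refine ⟨X, hX0, hX1, ?_, ?_⟩
    · change (cutEdges (redG E) X).ncard ≤ E.card - k * (k - 1) / 2
      have hsub : cutEdges (redG E) X ⊆ (fun e : Fin M × Fin M =>
          if e.1 ∈ S then s(vw M e, vu M e.2) else if e.2 ∈ S then s(vw M e, vu M e.1)
            else s(vw M e, v0 M)) '' (E.filter (fun e => ¬(e.1 ∈ S ∧ e.2 ∈ S)) : Finset _) := by
        rintro _ ⟨a, b, ha, hb, ⟨e, he, h⟩, rfl⟩
        rcases h with ⟨rfl, hn⟩ | ⟨rfl, hn⟩
        · have h1 := (hXw e he).1 ha
          rcases hn with rfl | rfl | rfl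
          · exact absurd hX0 hb
          · have h2 : e.1 ∉ S := fun h => hb ((hXu _).2 h)
            have h3 : e.2 ∈ S := h1.resolve_left h2
            refine ⟨e, by simp [he, h2], by simp [h2, h3]⟩
          · have h2 : e.2 ∉ S := fun h => hb ((hXu _).2 h)
            have h3 : e.1 ∈ S := h1.resolve_right h2
            refine ⟨e, by simp [he, h2], by simp [h3]⟩
        · have h1 : ¬ (e.1 ∈ S ∨ e.2 ∈ S) := fun h => hb ((hXw e he).2 h)
          rcases hn with rfl | rfl | rfl
          · have h2 : e.1 ∉ S := fun h => h1 (Or.inl h)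
            have h3 : e.2 ∉ S := fun h => h1 (Or.inr h)
            refine ⟨e, by simp [he, h2], ?_⟩
            beta_reduce
            rw [if_neg h2, if_neg h3]
            exact Sym2.eq_swap
          · exact absurd (Or.inl ((hXu _).1 ha)) h1
          · exact absurd (Or.inr ((hXu _).1 ha)) h1
      refine (Set.ncard_le_ncard hsub (Set.toFinite _)).trans ?_
      refine (Set.ncard_image_le (Set.toFinite _)).trans ?_
      rw [Set.ncard_coe_finset]
      have hsplit := Finset.card_filter_add_card_filter_not (s := E)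
        (p := fun e => e.1 ∈ S ∧ e.2 ∈ S)
      have hgood : (S ×ˢ S).filter (fun e => e.1 < e.2) ⊆ E.filter (fun e => e.1 ∈ S ∧ e.2 ∈ S) := by
        rintro ⟨u, v⟩ he
        simp only [Finset.mem_filter, Finset.mem_product] at he ⊢
        exact ⟨hS u he.1.1 v he.1.2 he.2, he.1⟩
      have hcard := Finset.card_le_card hgood
      have h2 := two_mul_card_lt S
      have h3 := even_mul_pred k
      rw [hSk] at h2
      omega
    · change (cutEdges (blueG M) X).ncard ≤ k
      have hsub : cutEdges (blueG M) X ⊆ (fun u : Fin M => s(vu M u, v1 M)) '' (S : Set (Fin M)) := by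
        rintro _ ⟨a, b, ha, hb, ⟨u, h⟩, rfl⟩
        rcases h with ⟨rfl, rfl⟩ | ⟨rfl, rfl⟩
        · exact absurd ha hX1
        · exact ⟨u, (hXu u).1 ha, rfl⟩
      refine (Set.ncard_le_ncard hsub (Set.toFinite _)).trans ?_
      refine (Set.ncard_image_le (Set.toFinite _)).trans ?_
      rw [Set.ncard_coe_finset, hSk]

end Gadget

end Pool.Agent.H83
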