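import Pool.Agent.H83.Tableau
import Pool.Agent.H83.RBGadget

/-!
# From constraint problems to cliques
-/

set_option autoImplicit false

namespace Pool.Agent.H83

namespace CSPRed

/-- Allowed assignments of a constraint. -/
abbrev PA := List ((ℕ × ℕ) × ℕ)

/-- The vertices: allowed assignments together with the index of their constraint. -/
def verts (C : CSP) : List (ℕ × PA) :=
  (List.range C.length).flatMap (fun j => ((C.drop j).headD []).map (fun p => (j, p)))

/-- Two assignments agree on the common variables. -/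
def compat (p p' : PA) : Bool :=
  p.all (fun a => p'.all (fun b =>
    !(decide (a.1.1 = b.1.1) && decide (a.1.2 = b.1.2)) || decide (a.2 = b.2)))

/-- Adjacency. -/
def adj (u v : ℕ × PA) : Bool :=
  !(decide (u.1 = v.1)) && (compat u.2 v.2 && (compat u.2 u.2 && compat v.2 v.2))

/-- The `i`-th entry of a list. -/
def nth (vs : List (ℕ × PA)) (i : ℕ) : ℕ × PA := (vs.drop i).headD (0, [])

/-- The edges, as pairs of indices. -/
def edges (vs : List (ℕ × PA)) : List (ℕ × ℕ) :=
  (List.range vs.length).flatMap (fun u => ((List.range vs.length).filter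
    (fun v => decide (u < v) && adj (nth vs u) (nth vs v))).map (fun v => (u, v)))

theorem compat_iff (p p' : PA) : compat p p' = true ↔ ∀ a ∈ p, ∀ b ∈ p', a.1 = b.1 → a.2 = b.2 := by
  unfold compat
  simp only [List.all_eq_true, Bool.or_eq_true, Bool.not_eq_true', Bool.and_eq_false_iff,
    decide_eq_false_iff_not, decide_eq_true_eq]
  constructor
  · intro h a ha b hb hab
    rcases h a ha b hb with (h | h) | h
    · exact absurd (by rw [hab]) h
    · exact absurd (by rw [hab]) h
    · exact h
  · intro h a ha b hb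
    by_cases hab : a.1 = b.1
    · exact Or.inr (h a ha b hb hab)
    · left
      by_contra hcon
      push Not at hcon
      exact hab (Prod.ext hcon.1 hcon.2)

theorem nth_eq {vs : List (ℕ × PA)} {i : ℕ} (h : i < vs.length) : nth vs i = vs[i] := by
  unfold nth
  rw [List.drop_eq_getElem_cons h]
  rfl

theorem headD_drop {β : Type} {l : List β} {i : ℕ} (h : i < l.length) (d : β) :
    (l.drop i).headD d = l[i] := by
  rw [List.drop_eq_getElem_cons h]
  rfl

theorem mem_verts {C : CSP} {u : ℕ × PA} : u ∈ verts C ↔ ∃ h : u.1 < C.length, u.2 ∈ C[u.1] := by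
  unfold verts
  simp only [List.mem_flatMap, List.mem_range, List.mem_map]
  constructor
  · rintro ⟨j, hj, p, hp, rfl⟩
    rw [headD_drop hj] at hp
    exact ⟨hj, hp⟩
  · rintro ⟨h, hu⟩
    exact ⟨u.1, h, u.2, by rwa [headD_drop h], rfl⟩

theorem mem_edges {vs : List (ℕ × PA)} {e : ℕ × ℕ} :
    e ∈ edges vs ↔ e.1 < vs.length ∧ e.2 < vs.length ∧ e.1 < e.2 ∧
      adj (nth vs e.1) (nth vs e.2) = true := by
  unfold edges
  simp only [List.mem_flatMap, List.mem_range, List.mem_map, List.mem_filter, Bool.and_eq_true,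
    decide_eq_true_eq]
  constructor
  · rintro ⟨u, hu, v, ⟨hv, huv, h⟩, rfl⟩
    exact ⟨hu, hv, huv, h⟩
  · rintro ⟨h1, h2, h3, h4⟩
    exact ⟨e.1, h1, e.2, ⟨h2, h3, h4⟩, rfl⟩

theorem nodup_edges (vs : List (ℕ × PA)) : (edges vs).Nodup := by
  unfold edges
  rw [List.nodup_flatMap]
  constructor
  · intro u _
    exact ((List.nodup_range).filter _).map (fun a b h => by simpa using h)
  · refine List.Pairwise.imp ?_ (List.nodup_range (n := vs.length))
    intro a b hab
    simp only [Function.onFun, List.disjoint_left, List.mem_map, List.mem_filter]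
    rintro e ⟨v, _, rfl⟩ ⟨w, _, h⟩
    exact hab (congrArg Prod.fst h).symm

/-- The edges as a finite set. -/
def E (vs : List (ℕ × PA)) : Finset (Fin vs.length × Fin vs.length) :=
  Finset.univ.filter (fun e => e.1 < e.2 ∧ adj (nth vs e.1.val) (nth vs e.2.val) = true)

theorem card_E (vs : List (ℕ × PA)) : (E vs).card = (edges vs).length := by
  rw [← List.toFinset_card_of_nodup (nodup_edges vs)]
  refine Finset.card_bij (fun e _ => (e.1.val, e.2.val)) ?_ ?_ ?_
  · intro e he
    simp only [E, Finset.mem_filter, Finset.mem_univ, true_and] at he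
    rw [List.mem_toFinset, mem_edges]
    exact ⟨e.1.isLt, e.2.isLt, he.1, he.2⟩
  · intro e _ e' _ h
    simp only [Prod.mk.injEq] at h
    exact Prod.ext (Fin.ext h.1) (Fin.ext h.2)
  · intro e he
    rw [List.mem_toFinset, mem_edges] at he
    refine ⟨(⟨e.1, he.1⟩, ⟨e.2, he.2.1⟩), ?_, rfl⟩
    simp only [E, Finset.mem_filter, Finset.mem_univ, true_and]
    exact ⟨he.2.2.1, he.2.2.2⟩

theorem mem_E {vs : List (ℕ × PA)} {u v : Fin vs.length} :
    (u, v) ∈ E vs ↔ u < v ∧ adj vs[u.val] vs[v.val] = true := by
  simp only [E, Finset.mem_filter, Finset.mem_univ, true_and]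
  rw [nth_eq u.isLt, nth_eq v.isLt]

theorem sat_iff (C : CSP) (hC : 2 ≤ C.length) :
    C.Sat ↔ ∃ S : Finset (Fin (verts C).length), S.card = C.length ∧
      ∀ u ∈ S, ∀ v ∈ S, u < v → (u, v) ∈ E (verts C) := by
  classical
  constructor
  · rintro ⟨s, hs⟩
    have h1 : ∀ j : Fin C.length, ∃ u : Fin (verts C).length, (verts C)[u.val].1 = j.val ∧
        ∀ q ∈ (verts C)[u.val].2, s q.1 = q.2 := by
      intro j
      obtain ⟨p, hp, hq⟩ := hs C[j.val] (List.getElem_mem _)
      have hmem : (j.val, p) ∈ verts C := mem_verts.2 ⟨j.isLt, hp⟩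
      obtain ⟨i, hi, hi'⟩ := List.getElem_of_mem hmem
      refine ⟨⟨i, hi⟩, ?_, ?_⟩
      · simp only [hi']
      · simp only [hi']; exact hq
    choose f hf1 hf2 using h1
    have hfinj : Function.Injective f := by
      intro a b hab
      have := hf1 a
      rw [hab, hf1 b] at this
      exact Fin.ext this.symm
    refine ⟨Finset.univ.image f, ?_, ?_⟩
    · rw [Finset.card_image_of_injective _ hfinj]; simp
    · intro u hu v hv huv
      obtain ⟨a, _, rfl⟩ := Finset.mem_image.1 hu
      obtain ⟨b, _, rfl⟩ := Finset.mem_image.1 hv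
      rw [mem_E]
      refine ⟨huv, ?_⟩
      have hc : ∀ a b, compat (verts C)[(f a).val].2 (verts C)[(f b).val].2 = true := by
        intro a b
        rw [compat_iff]
        intro x hx y hy hxy
        rw [← hf2 a x hx, ← hf2 b y hy, hxy]
      have hne : (verts C)[(f a).val].1 ≠ (verts C)[(f b).val].1 := by
        rw [hf1, hf1]
        intro h
        have : a = b := Fin.ext h
        subst this
        exact lt_irrefl _ huv
      unfold adj
      simp only [hne, decide_false, Bool.not_false, hc, Bool.and_self]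
  · rintro ⟨S, hSk, hS⟩
    have hadj : ∀ u ∈ S, ∀ v ∈ S, u ≠ v → (verts C)[u.val].1 ≠ (verts C)[v.val].1 ∧
        (compat (verts C)[u.val].2 (verts C)[v.val].2 = true) ∧
        (compat (verts C)[u.val].2 (verts C)[u.val].2 = true) := by
      intro u hu v hv huv
      rcases lt_or_gt_of_ne huv with h | h
      · have := (mem_E.1 (hS u hu v hv h)).2
        unfold adj at this
        simp only [Bool.and_eq_true, Bool.not_eq_true', decide_eq_false_iff_not] at this
        exact ⟨this.1, this.2.1, this.2.2.1⟩
      · have := (mem_E.1 (hS v hv u hu h)).2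
        unfold adj at this
        simp only [Bool.and_eq_true, Bool.not_eq_true', decide_eq_false_iff_not] at this
        refine ⟨fun h => this.1 h.symm, ?_, this.2.2.2⟩
        have h3 := (compat_iff _ _).1 this.2.1
        rw [compat_iff]
        intro a ha b hb hab
        exact (h3 b hb a ha hab.symm).symm
    have hcons : ∀ u ∈ S, ∀ v ∈ S, ∀ a ∈ (verts C)[u.val].2, ∀ b ∈ (verts C)[v.val].2,
        a.1 = b.1 → a.2 = b.2 := by
      intro u hu v hv
      by_cases huv : u = v
      · subst huv
        -- another element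
        obtain ⟨w, hw, hwu⟩ : ∃ w ∈ S, w ≠ u := by
          apply Finset.exists_mem_ne
          omega
        exact (compat_iff _ _).1 (hadj u hu w hw hwu.symm).2.2
      · exact (compat_iff _ _).1 (hadj u hu v hv huv).2.1
    have hsurj : ∀ j < C.length, ∃ u ∈ S, (verts C)[u.val].1 = j := by
      have himg : S.image (fun u => (verts C)[u.val].1) = Finset.range C.length := by
        apply Finset.eq_of_subset_of_card_le
        · intro j hj
          obtain ⟨u, hu, rfl⟩ := Finset.mem_image.1 hj
          obtain ⟨h, _⟩ := mem_verts.1 (List.getElem_mem (l := verts C) u.isLt)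
          exact Finset.mem_range.2 h
        · rw [Finset.card_image_of_injOn, hSk, Finset.card_range]
          intro u hu v hv h
          by_contra hne
          exact (hadj u hu v hv hne).1 h
      intro j hj
      have : j ∈ S.image (fun u => (verts C)[u.val].1) := by
        rw [himg]; exact Finset.mem_range.2 hj
      obtain ⟨u, hu, h⟩ := Finset.mem_image.1 this
      exact ⟨u, hu, h⟩
    refine ⟨fun v => if h : ∃ u ∈ S, ∃ a ∈ (verts C)[u.val].2, a.1 = v then
      (h.choose_spec.2.choose).2 else 0, ?_⟩
    intro c hc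
    obtain ⟨j, hj, rfl⟩ := List.getElem_of_mem hc
    obtain ⟨u, hu, hju⟩ := hsurj j hj
    obtain ⟨h1, h2⟩ := mem_verts.1 (List.getElem_mem (l := verts C) u.isLt)
    refine ⟨(verts C)[u.val].2, ?_, ?_⟩
    · simp only [hju] at h2; exact h2
    · intro q hq
      have hex : ∃ u ∈ S, ∃ a ∈ (verts C)[u.val].2, a.1 = q.1 := ⟨u, hu, q, hq, rfl⟩
      beta_reduce
      rw [dif_pos hex]
      have hspec := hex.choose_spec
      have hspec2 := hspec.2.choose_spec
      exact hcons _ hspec.1 u hu _ hspec2.1 q hq hspec2.2

end CSPRed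

end Pool.Agent.H83
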