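import Pool.Agent.H83.Wrap

/-!
# The code of an object as a binary word is polynomial time computable
-/

set_option autoImplicit false

namespace Pool.Agent.H83

open T

section
variable {γ δ : Type}

/-- Push the piece of the symbol `x` on `A`. -/
def pushPiece (x : Bool) : Pg γ δ := .seq (Poly.pushTree (Enc.enc x)) (.push .A true)

theorem pushPiece_tr (x : Bool) (a b c d : List Bool) :
    Tr (α := γ) (β := δ) (pushPiece x) a b c d (piece x ++ a) b c d 7 := by
  have h := (Poly.pushTree_tr (γ := γ) (δ := δ) (Enc.enc x) a b c d).seq (Tr.pushA true)
  have h2 : (Enc.enc x).size ≤ 3 := Poly.sz_bool x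
  exact h.mono (by omega)

theorem emptyPieces_tr (b : List Bool) : ∀ (a c d : List Bool),
    Tr (α := γ) (β := δ) (emptyB pushPiece) a b c d (b.reverse.flatMap piece ++ a) [] c d
      (10 * b.length + 1) := by
  induction b with
  | nil => intro a c d i o; exact RunLe.loopF (by simp [isS])
  | cons x b ih =>
    intro a c d i o
    cases x with
    | true =>
      have := RunLe.loopT (k := .B) (f := isS) (S := mk i o a (true :: b) c d) (by simp [isS])
        (RunLe.iteT (k := .B) (f := isT) (q := .seq (.pop .B) (pushPiece false)) (by simp [isT])
          ((Tr.popB true i o).seq (pushPiece_tr true a b c d i o))) (ih (piece true ++ a) c d i o)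
      have := this.mono (M := 10 * (true :: b).length + 1) (by simp only [List.length_cons]; omega)
      simpa [emptyB] using this
    | false =>
      have := RunLe.loopT (k := .B) (f := isS) (S := mk i o a (false :: b) c d) (by simp [isS])
        (RunLe.iteF (k := .B) (f := isT) (p := .seq (.pop .B) (pushPiece true)) (by simp [isT])
          ((Tr.popB false i o).seq (pushPiece_tr false a b c d i o))) (ih (piece false ++ a) c d i o)
      have := this.mono (M := 10 * (false :: b).length + 1) (by simp only [List.length_cons]; omega)
      simpa [emptyB] using this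

end

namespace Poly

variable {α β : Type} [Enc α] [Enc β]

theorem strPoly : Poly (fun a : α => str a) := by
  intro γ δ
  refine ⟨.seq mvAB (.seq (.push .A false) (emptyB pushPiece)), fun n => (5 * n + 2) +
    (1 + (10 * n + 1)), (((PB.const 5).mul PB.id).add (PB.const 2)).add ((PB.const 1).add
    (((PB.const 10).mul PB.id).add (PB.const 1))), fun t rest => ?_⟩
  have h1 := mvAB_tr (α := γ) (β := δ) (Enc.enc t) rest [] []
  have h2 := Tr.pushA (α := γ) (β := δ) (a := rest) (b := (Enc.enc t).enc.reverse ++ [])
    (c := []) (d := []) false
  have h3 := emptyPieces_tr (γ := γ) (δ := δ) ((Enc.enc t).enc.reverse ++ []) (false :: rest) [] []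
  have h := h1.seq (h2.seq h3)
  have e : ((Enc.enc t).enc.reverse ++ []).reverse.flatMap piece ++ false :: rest
      = str (str t) ++ rest := by
    rw [str_eq_pieces]
    simp [str]
  rw [e] at h
  refine h.mono ?_
  simp only [List.append_nil, List.length_reverse, length_enc]
  simp only [sz]
  omega

/-- The code of an object as a word. -/
theorem word {f : α → β} (hf : Poly f) : Poly (fun a => str (f a)) := strPoly.comp hf

end Poly

end Pool.Agent.H83
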