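import Pool.Agent.H83.CookLevin
import Pool.Agent.H83.CSPRed
import Pool.Agent.H83.Str

/-!
# How to prove NP-hardness: reductions from constraint problems and from CLIQUE

To prove `NPHard A` it is enough to give a `Poly` function from CLIQUE instances (or from constraint
problems) to words, and to prove that it is a reduction.
-/

set_option autoImplicit false

namespace Pool.Agent.H83

/-- NP-hardness by a reduction from constraint problems. -/
theorem npHard_of_csp {A : Set (List Bool)} {g : CSP → List Bool} (hg : Poly g)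
    (h : ∀ C : CSP, 2 ≤ C.length → (C.Sat ↔ g C ∈ A)) : NPHard A := by
  intro L hL
  obtain ⟨W, T, N, m, hx⟩ := cook_levin hL
  refine ⟨fun x => g
    (Tableau.tab W (T.eval x.length) (N.eval x.length) (m.eval x.length) x), ?_, ?_⟩
  · have hlen : Poly (fun x : List Bool => x.length) := Poly.length Poly.id
    exact Poly.toTM2 (hg.comp (Tableau.tab_poly W (Poly.polyEval T hlen)
      (Poly.polyEval N hlen) (Poly.polyEval m hlen) Poly.id))
  · intro x
    rw [hx x]
    exact h _ (by simp [Tableau.tab])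

/-- The graph on `{0, ..., M-1}` with the edges `(u, v)`, `u < v`, in the list `es` has a clique with
`k` elements. -/
def HasClique (M : ℕ) (es : List (ℕ × ℕ)) (k : ℕ) : Prop :=
  ∃ S : Finset ℕ, (∀ u ∈ S, u < M) ∧ S.card = k ∧ ∀ u ∈ S, ∀ v ∈ S, u < v → (u, v) ∈ es

theorem csp_iff_hasClique (C : CSP) (hC : 2 ≤ C.length) :
    C.Sat ↔ HasClique (CSPRed.verts C).length (CSPRed.edges (CSPRed.verts C)) C.length := by
  classical
  rw [CSPRed.sat_iff C hC]
  set vs := CSPRed.verts C
  constructor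
  · rintro ⟨S, hk, hS⟩
    refine ⟨S.map Fin.valEmbedding, ?_, by simpa using hk, ?_⟩
    · intro u hu
      obtain ⟨a, _, rfl⟩ := Finset.mem_map.1 hu
      exact a.isLt
    · intro u hu v hv huv
      obtain ⟨a, ha, rfl⟩ := Finset.mem_map.1 hu
      obtain ⟨b, hb, rfl⟩ := Finset.mem_map.1 hv
      have := hS a ha b hb huv
      simp only [CSPRed.E, Finset.mem_filter, Finset.mem_univ, true_and] at this
      rw [CSPRed.mem_edges]
      exact ⟨a.isLt, b.isLt, this.1, this.2⟩
  · rintro ⟨S, hlt, hk, hS⟩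
    refine ⟨Finset.univ.filter (fun a : Fin vs.length => a.val ∈ S), ?_, ?_⟩
    · rw [← hk]
      refine Finset.card_bij (fun a _ => a.val) ?_ ?_ ?_
      · intro a ha; simpa using ha
      · intro a _ b _ h; exact Fin.ext h
      · intro u hu; exact ⟨⟨u, hlt u hu⟩, by simpa using hu, rfl⟩
    · intro u hu v hv huv
      have h1 := hS u.val (by simpa using hu) v.val (by simpa using hv) huv
      rw [CSPRed.mem_edges] at h1
      simp only [CSPRed.E, Finset.mem_filter, Finset.mem_univ, true_and]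
      exact ⟨huv, h1.2.2.2⟩

/-- NP-hardness by a reduction from CLIQUE; instances are triples `(M, es, k)` with vertices
`0, ..., M-1`, edge list `es` without repetitions consisting of pairs `u < v < M`, and `2 ≤ k`. -/
theorem npHard_of_clique {A : Set (List Bool)} {g : ℕ × List (ℕ × ℕ) × ℕ → List Bool}
    (hg : Poly g)
    (h : ∀ (M : ℕ) (es : List (ℕ × ℕ)) (k : ℕ), es.Nodup → (∀ e ∈ es, e.1 < e.2 ∧ e.2 < M) →
      2 ≤ k → (HasClique M es k ↔ g (M, es, k) ∈ A)) : NPHard A := by
  refine npHard_of_csp (g := fun C => g ((CSPRed.verts C).length,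
    CSPRed.edges (CSPRed.verts C), C.length)) ?_ ?_
  · have hv : Poly (fun C : CSP => CSPRed.verts C) := by
      unfold CSPRed.verts
      refine Poly.flatMap (Poly.range (Poly.length Poly.id)) (Poly.map
        (Poly.headD [] (Tableau.drop_poly (Poly.id.comp Poly.fst) Poly.snd)) ?_)
      exact (Poly.snd' Poly.fst).pair Poly.snd
    have hcompat : ∀ {α : Type} [Enc α] {p q : α → CSPRed.PA}, Poly p → Poly q →
        Poly (fun a => CSPRed.compat (p a) (q a)) := by
      intro α _ p q hp hq
      unfold CSPRed.compat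
      refine Poly.all hp (Poly.all (hq.comp Poly.fst) ?_)
      have a1 := Poly.fst' (Poly.fst' (Poly.snd' (Poly.fst (α := α × ((ℕ × ℕ) × ℕ)) (β := (ℕ × ℕ) × ℕ))))
      have a2 := Poly.snd' (Poly.fst' (Poly.snd' (Poly.fst (α := α × ((ℕ × ℕ) × ℕ)) (β := (ℕ × ℕ) × ℕ))))
      have a3 := Poly.snd' (Poly.snd' (Poly.fst (α := α × ((ℕ × ℕ) × ℕ)) (β := (ℕ × ℕ) × ℕ)))
      have b1 := Poly.fst' (Poly.fst' (Poly.snd (α := α × ((ℕ × ℕ) × ℕ)) (β := (ℕ × ℕ) × ℕ)))
      have b2 := Poly.snd' (Poly.fst' (Poly.snd (α := α × ((ℕ × ℕ) × ℕ)) (β := (ℕ × ℕ) × ℕ)))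
      have b3 := Poly.snd' (Poly.snd (α := α × ((ℕ × ℕ) × ℕ)) (β := (ℕ × ℕ) × ℕ))
      exact Poly.or (Poly.not (Poly.and (Poly.natEq a1 b1) (Poly.natEq a2 b2))) (Poly.natEq a3 b3)
    have hadj : ∀ {α : Type} [Enc α] {u v : α → ℕ × CSPRed.PA}, Poly u → Poly v →
        Poly (fun a => CSPRed.adj (u a) (v a)) := by
      intro α _ u v hu hv
      unfold CSPRed.adj
      exact Poly.and (Poly.not (Poly.natEq (Poly.fst' hu) (Poly.fst' hv)))
        (Poly.and (hcompat (Poly.snd' hu) (Poly.snd' hv))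
        (Poly.and (hcompat (Poly.snd' hu) (Poly.snd' hu)) (hcompat (Poly.snd' hv) (Poly.snd' hv))))
    have he : Poly (fun C : CSP => CSPRed.edges (CSPRed.verts C)) := by
      unfold CSPRed.edges
      refine Poly.flatMap (Poly.range (Poly.length hv)) (Poly.map (Poly.filter
        (Poly.range (Poly.length (hv.comp Poly.fst))) ?_) ?_)
      · refine Poly.and (Poly.natLt (Poly.snd' Poly.fst) Poly.snd) (hadj
          (Poly.headD _ (Tableau.drop_poly (hv.comp (Poly.fst' Poly.fst)) (Poly.snd' Poly.fst)))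
          (Poly.headD _ (Tableau.drop_poly (hv.comp (Poly.fst' Poly.fst)) Poly.snd)))
      · exact (Poly.snd' Poly.fst).pair Poly.snd
    exact hg.comp ((Poly.length hv).pair (he.pair (Poly.length Poly.id)))
  · intro C hC
    rw [csp_iff_hasClique C hC]
    refine h _ _ _ (CSPRed.nodup_edges _) ?_ hC
    intro e he
    rw [CSPRed.mem_edges] at he
    exact ⟨he.2.2.1, he.2.1⟩

end Pool.Agent.H83
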