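import Mathlib

/-!
# NP-hardness, with Mathlib's polynomial time Turing machines

Decision problems are languages over the binary alphabet `Bool`, that is, sets of words
`List Bool`. Polynomial time computability is Mathlib's `Turing.TM2ComputableInPolyTime`.
-/

set_option autoImplicit false

namespace Pool.Agent.H83

open Turing

/-- The word over the alphabet `Bool ⊕ Bool` that represents a pair of binary words: the letters of
the first word, tagged `inl`, followed by the letters of the second word, tagged `inr`. -/
def pairWord (p : List Bool × List Bool) : List (Bool ⊕ Bool) :=
  p.1.map Sum.inl ++ p.2.map Sum.inr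

/-- `f` is a polynomial time computable function on binary words. -/
def PolyTimeFun (f : List Bool → List Bool) : Prop :=
  Nonempty (TM2ComputableInPolyTime (id : List Bool → List Bool) (id : List Bool → List Bool) f)

/-- `L` is in NP: there are a polynomial `q` and a polynomial time verifier `V` such that `x ∈ L` if
and only if `V` accepts `(x, y)` for some certificate `y` of length exactly `q(|x|)`. -/
def InNP (L : Set (List Bool)) : Prop :=
  ∃ (q : Polynomial ℕ) (V : List Bool × List Bool → Bool),
    Nonempty (TM2ComputableInPolyTime pairWord Computability.encodeBool V) ∧
    ∀ x, x ∈ L ↔ ∃ y : List Bool, y.length = q.eval x.length ∧ V (x, y) = true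

/-- `A` is NP-hard: every language in NP has a polynomial time many-one reduction to `A`. -/
def NPHard (A : Set (List Bool)) : Prop :=
  ∀ L : Set (List Bool), InNP L → ∃ f : List Bool → List Bool, PolyTimeFun f ∧ ∀ x, x ∈ L ↔ f x ∈ A

/-- `A` is NP-complete. -/
def NPComplete (A : Set (List Bool)) : Prop := InNP A ∧ NPHard A

end Pool.Agent.H83
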