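import Pool.Agent.H83.PolyLib

/-!
# Constraint satisfaction problems and tableaux of local systems
-/

set_option autoImplicit false

namespace Pool.Agent.H83

/-- A constraint problem: a list of constraints, each a list of allowed assignments of values to
finitely many variables; the variables are pairs of numbers. -/
abbrev CSP := List (List (List ((ℕ × ℕ) × ℕ)))

/-- Satisfiability. -/
def CSP.Sat (C : CSP) : Prop := ∃ s : ℕ × ℕ → ℕ, ∀ c ∈ C, ∃ p ∈ c, ∀ q ∈ p, s q.1 = q.2

namespace Tableau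

/-- The finite data of a tableau. -/
structure Data where
  /-- windows for the control -/
  winC : List (ℕ × ℕ × ℕ)
  /-- windows for the cell `0` -/
  win0 : List (ℕ × ℕ × ℕ × ℕ)
  /-- windows for the other cells -/
  win1 : List (ℕ × ℕ × ℕ × ℕ × ℕ)
  /-- the blank -/
  blank : ℕ
  /-- initial control -/
  q0 : ℕ
  /-- the letter `false` of the first word -/
  l0 : ℕ
  /-- the letter `true` of the first word -/
  l1 : ℕ
  /-- the letter `false` of the second word -/
  r0 : ℕ
  /-- the letter `true` of the second word -/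
  r1 : ℕ
  /-- accepting contents of the cell `0` -/
  acc : List ℕ

/-- Constraint for the initial content of cell `i`. -/
def initC (W : Data) (m : ℕ) (x : List Bool) (i : ℕ) : List (List ((ℕ × ℕ) × ℕ)) :=
  bif decide (i < x.length) then
    (bif (x.drop i).headD false then [[((0, i + 1), W.l1)]] else [[((0, i + 1), W.l0)]])
  else bif decide (i < x.length + m) then [[((0, i + 1), W.r0)], [((0, i + 1), W.r1)]]
  else [[((0, i + 1), W.blank)]]

/-- Constraints for the step at time `t`. -/
def stepC (W : Data) (N t : ℕ) : CSP :=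
  W.winC.map (fun w => [((t, 0), w.1), ((t, 1), w.2.1), ((t + 1, 0), w.2.2)]) ::
  W.win0.map (fun w => [((t, 0), w.1), ((t, 1), w.2.1), ((t, 2), w.2.2.1), ((t + 1, 1), w.2.2.2)]) ::
  [[((t, N + 2), W.blank)]] ::
  (List.range N).map (fun i => W.win1.map (fun w => [((t, 0), w.1), ((t, i + 1), w.2.1),
    ((t, i + 2), w.2.2.1), ((t, i + 3), w.2.2.2.1), ((t + 1, i + 2), w.2.2.2.2)]))

/-- The tableau. -/
def tab (W : Data) (T N m : ℕ) (x : List Bool) : CSP :=
  [[((0, 0), W.q0)]] ::
  (W.acc.map (fun a => [((T, 1), a)]) ::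
  ((List.range (N + 2)).map (initC W m x) ++ (List.range T).flatMap (stepC W N)))

/-! ### Polynomial time -/

section poly
open Pool.Agent.H83.Poly
variable {α : Type} [Enc α]

theorem drop_poly {β : Type} [Enc β] {l : α → List β} {n : α → ℕ} (hl : Poly l) (hn : Poly n) :
    Poly (fun a => (l a).drop (n a)) := by
  have key : ∀ (n : ℕ) (l : List β), (fun l : List β => l.tail)^[n] l = l.drop n := by
    intro n
    induction n with
    | zero => intro l; rfl
    | succ n ih =>
      intro l
      rw [Function.iterate_succ_apply, ih]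
      simp
  obtain ⟨b, hb, hbm, hlb⟩ := hl.size_le
  refine (iterate (n := n) (s := l) (f := fun l => l.tail) hn hl (tail Poly.id) b hb ?_).congr
    fun a => key _ _
  intro a i _
  rw [key]
  exact (sz_drop_le _ _).trans (hlb a)

theorem sing {β : Type} [Enc β] {f : α → β} (hf : Poly f) : Poly (fun a => [f a]) :=
  cons hf (const [])

theorem asg {f g h : α → ℕ} (hf : Poly f) (hg : Poly g) (hh : Poly h) :
    Poly (fun a => ((f a, g a), h a)) := (hf.pair hg).pair hh

theorem initC_poly (W : Data) {m : α → ℕ} {x : α → List Bool} {i : α → ℕ} (hm : Poly m)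
    (hx : Poly x) (hi : Poly i) : Poly (fun a => initC W (m a) (x a) (i a)) := by
  unfold initC
  have h1 : Poly (fun a => i a + 1) := succ hi
  have hv : ∀ c : ℕ, Poly (fun a => [((0, i a + 1), c)]) := fun c =>
    sing (asg (const 0) h1 (const c))
  refine cond (natLt hi (length hx)) (cond (headD false (drop_poly hx hi)) (sing (hv _))
    (sing (hv _))) (cond (natLt hi (add (length hx) hm)) (cons (hv _) (sing (hv _)))
    (sing (hv _)))

theorem stepC_poly (W : Data) {N t : α → ℕ} (hN : Poly N) (ht : Poly t) :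
    Poly (fun a => stepC W (N a) (t a)) := by
  unfold stepC
  refine cons (map (const W.winC) ?_) (cons (map (const W.win0) ?_) (cons (sing (sing
    (asg ht (succ (succ hN)) (const _)))) (map (range hN) (map (const W.win1) ?_))))
  · have t' := ht.comp (fst (α := α) (β := ℕ × ℕ × ℕ))
    exact cons (asg t' (const 0) (fst' snd)) (cons (asg t' (const 1) (fst' (snd' snd)))
      (sing (asg (succ t') (const 0) (snd' (snd' snd)))))
  · have t' := ht.comp (fst (α := α) (β := ℕ × ℕ × ℕ × ℕ))
    exact cons (asg t' (const 0) (fst' snd)) (cons (asg t' (const 1) (fst' (snd' snd)))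
      (cons (asg t' (const 2) (fst' (snd' (snd' snd))))
      (sing (asg (succ t') (const 1) (snd' (snd' (snd' snd)))))))
  · have t' := ht.comp (fst' (fst (α := α × ℕ) (β := ℕ × ℕ × ℕ × ℕ × ℕ)))
    have i' := snd' (fst (α := α × ℕ) (β := ℕ × ℕ × ℕ × ℕ × ℕ))
    exact cons (asg t' (const 0) (fst' snd)) (cons (asg t' (succ i') (fst' (snd' snd)))
      (cons (asg t' (succ (succ i')) (fst' (snd' (snd' snd))))
      (cons (asg t' (succ (succ (succ i'))) (fst' (snd' (snd' (snd' snd)))))
      (sing (asg (succ t') (succ (succ i')) (snd' (snd' (snd' (snd' snd)))))))))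

theorem tab_poly (W : Data) {T N m : α → ℕ} {x : α → List Bool} (hT : Poly T) (hN : Poly N)
    (hm : Poly m) (hx : Poly x) : Poly (fun a => tab W (T a) (N a) (m a) (x a)) := by
  unfold tab
  refine cons (const _) (cons (map (const W.acc) (sing (asg (hT.comp fst) (const 1) snd)))
    (append (map (range (succ (succ hN))) ?_) (flatMap (range hT) ?_)))
  · exact initC_poly W (hm.comp fst) (hx.comp fst) snd
  · exact stepC_poly W (hN.comp fst) snd

end poly

/-! ### Correctness -/

section correct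

variable {Q X : Type} (cc : Q → ℕ) (cx : X → ℕ) (LQ : List Q) (LX : List X)
  (F : Q → X → Q) (F0 : Q → X → X → X) (F1 : Q → X → X → X → X)

/-- The data of a tableau, from a local system. -/
def mkData (bl : X) (q0 : Q) (l0 l1 r0 r1 : X) (acc : List X) : Data where
  winC := LQ.flatMap (fun q => LX.map (fun a => (cc q, cx a, cc (F q a))))
  win0 := LQ.flatMap (fun q => LX.flatMap (fun a => LX.map (fun b =>
    (cc q, cx a, cx b, cx (F0 q a b)))))
  win1 := LQ.flatMap (fun q => LX.flatMap (fun l => LX.flatMap (fun a => LX.map (fun r =>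
    (cc q, cx l, cx a, cx r, cx (F1 q l a r))))))
  blank := cx bl
  q0 := cc q0
  l0 := cx l0
  l1 := cx l1
  r0 := cx r0
  r1 := cx r1
  acc := acc.map cx

variable {cc cx LQ LX F F0 F1}
variable {bl : X} {q0 : Q} {l0 l1 r0 r1 : X} {acc : List X}

/-- A run of the local system. -/
structure IsRun (LQ : List Q) (LX : List X) (F : Q → X → Q) (F0 : Q → X → X → X)
    (F1 : Q → X → X → X → X) (R : ℕ → Q × (ℕ → X)) : Prop where
  hQ : ∀ t, (R (t + 1)).1 = F (R t).1 ((R t).2 0)
  h0 : ∀ t, (R (t + 1)).2 0 = F0 (R t).1 ((R t).2 0) ((R t).2 1)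
  h1 : ∀ t i, (R (t + 1)).2 (i + 1) = F1 (R t).1 ((R t).2 i) ((R t).2 (i + 1)) ((R t).2 (i + 2))
  mQ : ∀ t, (R t).1 ∈ LQ
  mX : ∀ t i, (R t).2 i ∈ LX

theorem sound {R : ℕ → Q × (ℕ → X)} (hR : IsRun LQ LX F F0 F1 R)
    (hcc : ∀ q ∈ LQ, ∀ q' ∈ LQ, cc q = cc q' → q = q')
    (hcx : ∀ a ∈ LX, ∀ b ∈ LX, cx a = cx b → a = b) (T N : ℕ)
    (hbl : ∀ t ≤ T, (R t).2 (N + 1) = bl) (s : ℕ × ℕ → ℕ)
    (hs : ∀ t < T, ∀ c ∈ stepC (mkData cc cx LQ LX F F0 F1 bl q0 l0 l1 r0 r1 acc) N t,
      ∃ p ∈ c, ∀ q ∈ p, s q.1 = q.2)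
    (h00 : s (0, 0) = cc (R 0).1) (h0i : ∀ i ≤ N + 1, s (0, i + 1) = cx ((R 0).2 i)) :
    ∀ t ≤ T, s (t, 0) = cc (R t).1 ∧ ∀ i ≤ N, s (t, i + 1) = cx ((R t).2 i) := by
  intro t
  induction t with
  | zero => intro _; exact ⟨h00, fun i hi => h0i i (by omega)⟩
  | succ t ih =>
    intro ht
    obtain ⟨ih0, ihi⟩ := ih (by omega)
    have hst := hs t (by omega)
    -- the blank cell at time `t`
    have hb : s (t, N + 2) = cx ((R t).2 (N + 1)) := by
      rw [hbl t (by omega)]
      obtain ⟨p, hp, hq⟩ := hst _ (by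
        unfold stepC
        exact List.mem_cons_of_mem _ (List.mem_cons_of_mem _ List.mem_cons_self))
      simp only [List.mem_singleton] at hp
      subst hp
      exact hq ((t, N + 2), cx bl) (by simp [mkData])
    have ihi' : ∀ i ≤ N + 1, s (t, i + 1) = cx ((R t).2 i) := by
      intro i hi
      rcases Nat.lt_or_ge i (N + 1) with h | h
      · exact ihi i (by omega)
      · have : i = N + 1 := by omega
        subst this
        exact hb
    refine ⟨?_, ?_⟩
    · obtain ⟨p, hp, hq⟩ := hst _ (by unfold stepC; exact List.mem_cons_self)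
      simp only [mkData, List.mem_map, List.mem_flatMap] at hp
      obtain ⟨w, ⟨q, hqQ, a, haX, rfl⟩, rfl⟩ := hp
      have e1 : s (t, 0) = cc q := hq ((t, 0), cc q) (by simp)
      have e2 : s (t, 1) = cx a := hq ((t, 1), cx a) (by simp)
      have e3 : s (t + 1, 0) = cc (F q a) := hq ((t + 1, 0), cc (F q a)) (by simp)
      have e4 : q = (R t).1 := hcc _ hqQ _ (hR.mQ t) (by rw [← e1, ih0])
      have e5 : a = (R t).2 0 := hcx _ haX _ (hR.mX t 0) (by rw [← e2, ← ihi' 0 (by omega)])
      rw [e3, e4, e5, hR.hQ]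
    · intro i hi
      cases i with
      | zero =>
        obtain ⟨p, hp, hq⟩ := hst _ (by
          unfold stepC; exact List.mem_cons_of_mem _ List.mem_cons_self)
        simp only [mkData, List.mem_map, List.mem_flatMap] at hp
        obtain ⟨w, ⟨q, hqQ, a, haX, b, hbX, rfl⟩, rfl⟩ := hp
        have e1 : s (t, 0) = cc q := hq ((t, 0), cc q) (by simp)
        have e2 : s (t, 1) = cx a := hq ((t, 1), cx a) (by simp)
        have e2' : s (t, 2) = cx b := hq ((t, 2), cx b) (by simp)
        have e3 : s (t + 1, 1) = cx (F0 q a b) := hq ((t + 1, 1), cx (F0 q a b)) (by simp)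
        have e4 : q = (R t).1 := hcc _ hqQ _ (hR.mQ t) (by rw [← e1, ih0])
        have e5 : a = (R t).2 0 := hcx _ haX _ (hR.mX t 0) (by rw [← e2, ← ihi' 0 (by omega)])
        have e6 : b = (R t).2 1 := hcx _ hbX _ (hR.mX t 1) (by rw [← e2', ← ihi' 1 (by omega)])
        rw [e3, e4, e5, e6, hR.h0]
      | succ i =>
        obtain ⟨p, hp, hq⟩ := hst _ (by
          unfold stepC
          exact List.mem_cons_of_mem _ (List.mem_cons_of_mem _ (List.mem_cons_of_mem _
            (List.mem_map.2 ⟨i, List.mem_range.2 (by omega), rfl⟩))))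
        simp only [mkData, List.mem_map, List.mem_flatMap] at hp
        obtain ⟨w, ⟨q, hqQ, l, hlX, a, haX, r, hrX, rfl⟩, rfl⟩ := hp
        have e1 : s (t, 0) = cc q := hq ((t, 0), cc q) (by simp)
        have e2 : s (t, i + 1) = cx l := hq ((t, i + 1), cx l) (by simp)
        have e2' : s (t, i + 2) = cx a := hq ((t, i + 2), cx a) (by simp)
        have e2'' : s (t, i + 3) = cx r := hq ((t, i + 3), cx r) (by simp)
        have e3 : s (t + 1, i + 2) = cx (F1 q l a r) :=
          hq ((t + 1, i + 2), cx (F1 q l a r)) (by simp)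
        have e4 : q = (R t).1 := hcc _ hqQ _ (hR.mQ t) (by rw [← e1, ih0])
        have e5 : l = (R t).2 i := hcx _ hlX _ (hR.mX t i) (by rw [← e2, ← ihi' i (by omega)])
        have e6 : a = (R t).2 (i + 1) :=
          hcx _ haX _ (hR.mX t _) (by rw [← e2', ← ihi' (i + 1) (by omega)])
        have e7 : r = (R t).2 (i + 2) :=
          hcx _ hrX _ (hR.mX t _) (by rw [← e2'', ← ihi' (i + 2) (by omega)])
        rw [e3, e4, e5, e6, e7, hR.h1]

theorem complete {R : ℕ → Q × (ℕ → X)} (hR : IsRun LQ LX F F0 F1 R) (T N : ℕ)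
    (hbl : ∀ t ≤ T, (R t).2 (N + 1) = bl) :
    ∀ t < T, ∀ c ∈ stepC (mkData cc cx LQ LX F F0 F1 bl q0 l0 l1 r0 r1 acc) N t,
      ∃ p ∈ c, ∀ q ∈ p, (fun v : ℕ × ℕ => match v.2 with
        | 0 => cc (R v.1).1 | i + 1 => cx ((R v.1).2 i)) q.1 = q.2 := by
  intro t ht c hc
  unfold stepC at hc
  rcases List.mem_cons.1 hc with rfl | hc
  · refine ⟨_, List.mem_map.2 ⟨(cc (R t).1, cx ((R t).2 0), cc (F (R t).1 ((R t).2 0))), ?_, rfl⟩, ?_⟩
    · simp only [mkData, List.mem_flatMap, List.mem_map]
      exact ⟨_, hR.mQ t, _, hR.mX t 0, rfl⟩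
    · intro q hq
      simp only [List.mem_cons, List.not_mem_nil, or_false] at hq
      rcases hq with rfl | rfl | rfl
      · rfl
      · rfl
      · simp [hR.hQ]
  rcases List.mem_cons.1 hc with rfl | hc
  · refine ⟨_, List.mem_map.2 ⟨(cc (R t).1, cx ((R t).2 0), cx ((R t).2 1),
      cx (F0 (R t).1 ((R t).2 0) ((R t).2 1))), ?_, rfl⟩, ?_⟩
    · simp only [mkData, List.mem_flatMap, List.mem_map]
      exact ⟨_, hR.mQ t, _, hR.mX t 0, _, hR.mX t 1, rfl⟩
    · intro q hq
      simp only [List.mem_cons, List.not_mem_nil, or_false] at hq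
      rcases hq with rfl | rfl | rfl | rfl
      · rfl
      · rfl
      · rfl
      · simp [hR.h0]
  rcases List.mem_cons.1 hc with rfl | hc
  · refine ⟨_, List.mem_singleton.2 rfl, ?_⟩
    intro q hq
    simp only [List.mem_singleton] at hq
    subst hq
    simp [hbl t (by omega), mkData]
  · obtain ⟨i, hi, rfl⟩ := List.mem_map.1 hc
    refine ⟨_, List.mem_map.2 ⟨(cc (R t).1, cx ((R t).2 i), cx ((R t).2 (i + 1)),
      cx ((R t).2 (i + 2)), cx (F1 (R t).1 ((R t).2 i) ((R t).2 (i + 1)) ((R t).2 (i + 2)))),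
      ?_, rfl⟩, ?_⟩
    · simp only [mkData, List.mem_flatMap, List.mem_map]
      exact ⟨_, hR.mQ t, _, hR.mX t i, _, hR.mX t _, _, hR.mX t _, rfl⟩
    · intro q hq
      simp only [List.mem_cons, List.not_mem_nil, or_false] at hq
      rcases hq with rfl | rfl | rfl | rfl | rfl
      · rfl
      · rfl
      · rfl
      · rfl
      · simp [hR.h1]

end correct

end Tableau

end Pool.Agent.H83
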