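import Pool.Agent.H83.NPDefs
import Pool.Agent.H83.Wrap
import Pool.Agent.H83.Tableau

/-!
# Membership in NP by a `Poly` verifier
-/

set_option autoImplicit false

namespace Pool.Agent.H83

open Turing

/-- Tag and value of a tagged letter. -/
def tagVal : Bool ⊕ Bool → Bool × Bool
  | Sum.inl b => (false, b)
  | Sum.inr b => (true, b)

instance instEncSumBool : Enc (Bool ⊕ Bool) where
  enc u := Enc.enc (tagVal u)
  inj := by
    intro u v h
    have h' := Enc.inj h
    cases u <;> cases v <;> simp_all [tagVal]

theorem tagVal_poly : Poly tagVal := Poly.of_enc_eq fun _ => rfl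

/-- The first word of a pair. -/
def leftWord (z : List (Bool ⊕ Bool)) : List Bool :=
  z.flatMap (fun u => bif (tagVal u).1 then [] else [(tagVal u).2])

/-- The second word of a pair. -/
def rightWord (z : List (Bool ⊕ Bool)) : List Bool :=
  z.flatMap (fun u => bif (tagVal u).1 then [(tagVal u).2] else [])

theorem leftWord_pairWord (p : List Bool × List Bool) : leftWord (pairWord p) = p.1 := by
  obtain ⟨x, y⟩ := p
  unfold leftWord pairWord
  rw [List.flatMap_append]
  have h1 : (x.map Sum.inl).flatMap (fun u : Bool ⊕ Bool => bif (tagVal u).1 then []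
      else [(tagVal u).2]) = x := by
    induction x with
    | nil => rfl
    | cons a x ih => rw [List.map_cons, List.flatMap_cons, ih]; rfl
  have h2 : (y.map Sum.inr).flatMap (fun u : Bool ⊕ Bool => bif (tagVal u).1 then []
      else [(tagVal u).2]) = [] := by
    induction y with
    | nil => rfl
    | cons a x ih => rw [List.map_cons, List.flatMap_cons, ih]; rfl
  rw [h1, h2, List.append_nil]

theorem rightWord_pairWord (p : List Bool × List Bool) : rightWord (pairWord p) = p.2 := by
  obtain ⟨x, y⟩ := p
  unfold rightWord pairWord
  rw [List.flatMap_append]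
  have h1 : (x.map Sum.inl).flatMap (fun u : Bool ⊕ Bool => bif (tagVal u).1 then [(tagVal u).2]
      else []) = [] := by
    induction x with
    | nil => rfl
    | cons a x ih => rw [List.map_cons, List.flatMap_cons, ih]; rfl
  have h2 : (y.map Sum.inr).flatMap (fun u : Bool ⊕ Bool => bif (tagVal u).1 then [(tagVal u).2]
      else []) = y := by
    induction y with
    | nil => rfl
    | cons a x ih => rw [List.map_cons, List.flatMap_cons, ih]; rfl
  rw [h1, h2, List.nil_append]

section
open Pool.Agent.H83.Poly

theorem leftWord_poly : Poly leftWord := by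
  unfold leftWord
  have h : Poly (fun p : List (Bool ⊕ Bool) × (Bool ⊕ Bool) => tagVal p.2) := tagVal_poly.comp snd
  exact flatMap Poly.id (cond (fst' h) (const []) (cons (snd' h) (const [])))

theorem rightWord_poly : Poly rightWord := by
  unfold rightWord
  have h : Poly (fun p : List (Bool ⊕ Bool) × (Bool ⊕ Bool) => tagVal p.2) := tagVal_poly.comp snd
  exact flatMap Poly.id (cond (fst' h) (cons (snd' h) (const [])) (const []))

/-- Membership in NP from a polynomial time verifier. -/
theorem inNP_of_poly {A : Set (List Bool)} (q : Polynomial ℕ) (V : List Bool × List Bool → Bool)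
    (hV : Poly V)
    (h : ∀ x, x ∈ A ↔ ∃ y : List Bool, y.length = q.eval x.length ∧ V (x, y) = true) : InNP A := by
  refine ⟨q, V, ?_, h⟩
  obtain ⟨c⟩ := Poly.toTM2 (f := fun z : List (Bool ⊕ Bool) => [V (leftWord z, rightWord z)])
    (cons (hV.comp (leftWord_poly.pair rightWord_poly)) (const []))
  refine ⟨{ c.toTM2ComputableAux with
    time := c.time
    outputsFun := fun p => ?_ }⟩
  have := c.outputsFun (pairWord p)
  simp only [id, leftWord_pairWord, rightWord_pairWord] at this
  exact this

end

end Pool.Agent.H83
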