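import Pool.Agent.H83.CSPRed

/-!
# The word computed by the reduction
-/

set_option autoImplicit false

namespace Pool.Agent.H83

/-! ### The encoding of instances is injective -/

theorem unary_append_inj {a b : ℕ} {u v : List Bool} (h : unary a ++ u = unary b ++ v) :
    a = b ∧ u = v := by
  induction a generalizing b with
  | zero =>
    cases b with
    | zero => simpa [unary] using h
    | succ b => simp [unary, List.replicate_succ] at h
  | succ a ih =>
    cases b with
    | zero => simp [unary, List.replicate_succ] at h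
    | succ b =>
      have h' : unary a ++ u = unary b ++ v := by
        simpa [unary, List.replicate_succ] using h
      obtain ⟨rfl, rfl⟩ := ih h'
      exact ⟨rfl, rfl⟩

theorem flatMap_pair_inj {ι : Type} {l : List ι} {f g : ι → List Bool} {c : ℕ}
    (hf : ∀ i, (f i).length = c) (hg : ∀ i, (g i).length = c) (h : l.flatMap f = l.flatMap g) :
    ∀ i ∈ l, f i = g i := by
  induction l with
  | nil => intro i hi; simp at hi
  | cons x l ih =>
    rw [List.flatMap_cons, List.flatMap_cons] at h
    obtain ⟨h1, h2⟩ := List.append_inj h (by rw [hf, hg])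
    intro i hi
    rcases List.mem_cons.1 hi with rfl | hi
    · exact h1
    · exact ih h2 i hi

theorem RBInstance.encode_injective {I J : RBInstance} (h : I.encode = J.encode) : I = J := by
  classical
  obtain ⟨n, red, blue, disj, s, t, hst, r, b⟩ := I
  obtain ⟨n', red', blue', disj', s', t', hst', r', b'⟩ := J
  unfold RBInstance.encode at h
  obtain ⟨rfl, h⟩ := unary_append_inj h
  obtain ⟨hs, h⟩ := unary_append_inj h
  obtain ⟨ht, h⟩ := unary_append_inj h
  obtain ⟨rfl, h⟩ := unary_append_inj h
  obtain ⟨rfl, h⟩ := unary_append_inj h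
  have hs' : s = s' := Fin.ext hs
  have ht' : t = t' := Fin.ext ht
  subst hs' ht'
  have hlen : ∀ (f : Fin n → Fin n → List Bool), (∀ u v, (f u v).length = 2) → ∀ u,
      ((List.finRange n).flatMap (f u)).length = n * 2 := by
    intro f hf u
    rw [List.length_flatMap]
    simp only [hf]
    simp
  have h1 := flatMap_pair_inj (c := n * 2)
    (hlen (fun u v => [decide (red.Adj u v), decide (blue.Adj u v)]) (by intro u v; rfl))
    (hlen (fun u v => [decide (red'.Adj u v), decide (blue'.Adj u v)]) (by intro u v; rfl)) h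
  have h2 : ∀ u v, (red.Adj u v ↔ red'.Adj u v) ∧ (blue.Adj u v ↔ blue'.Adj u v) := by
    intro u v
    have := flatMap_pair_inj (c := 2) (by intro i; rfl) (by intro i; rfl)
      (h1 u (List.mem_finRange u)) v (List.mem_finRange v)
    simpa using this
  have hr : red = red' := by
    ext u v; exact (h2 u v).1
  have hb : blue = blue' := by
    ext u v; exact (h2 u v).2
  subst hr hb
  rfl

theorem encode_mem_iff (I : RBInstance) : I.encode ∈ RedBlueCut ↔ I.HasCut := by
  constructor
  · rintro ⟨J, hJ, h⟩
    rwa [← RBInstance.encode_injective hJ]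
  · intro h; exact ⟨I, rfl, h⟩

theorem nil_not_mem : ([] : List Bool) ∉ RedBlueCut := by
  rintro ⟨J, hJ, _⟩
  unfold RBInstance.encode unary at hJ
  simp at hJ

namespace CSPRed

/-- The number of pairs of elements of a set with `k` elements. -/
def tri (k : ℕ) : ℕ := ((List.range k).flatMap (fun i => List.range i)).length

theorem two_mul_tri (k : ℕ) : 2 * tri k = k * (k - 1) := by
  induction k with
  | zero => rfl
  | succ k ih =>
    have : tri (k + 1) = tri k + k := by
      unfold tri
      rw [List.range_succ, List.flatMap_append]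
      simp
    rw [this, Nat.mul_add, ih]
    cases k with
    | zero => rfl
    | succ k => simp only [Nat.add_sub_cancel]; ring

theorem tri_eq (k : ℕ) : tri k = k * (k - 1) / 2 := by
  have := two_mul_tri k
  omega

/-- Number of the vertex of a pair. -/
def wnum (M : ℕ) (e : ℕ × ℕ) : ℕ := 2 + M + (e.1 * M + e.2)

/-- Its three neighbours. -/
def nbB (e : ℕ × ℕ) (b : ℕ) : Bool :=
  decide (b = 0) || (decide (b = 2 + e.1) || decide (b = 2 + e.2))

/-- Red adjacency. -/
def redB (M : ℕ) (es : List (ℕ × ℕ)) (a b : ℕ) : Bool :=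
  es.any (fun e => (decide (a = wnum M e) && nbB e b) || (decide (b = wnum M e) && nbB e a))

/-- Blue adjacency. -/
def blueB (M a b : ℕ) : Bool :=
  (List.range M).any (fun u =>
    (decide (a = 1) && decide (b = 2 + u)) || (decide (b = 1) && decide (a = 2 + u)))

/-- The adjacency matrix. -/
def matrix (M : ℕ) (es : List (ℕ × ℕ)) : List Bool :=
  (List.range (2 + M + M * M)).flatMap (fun a => (List.range (2 + M + M * M)).flatMap (fun b =>
    [redB M es a b, blueB M a b]))

/-- Unary notation by a map. -/
def unary' (k : ℕ) : List Bool := (List.range k).map (fun _ => true) ++ [false]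

theorem unary'_eq (k : ℕ) : unary' k = unary k := by
  unfold unary' unary
  congr 1
  simp

/-- The word of a graph given by its edges. -/
def gword (M : ℕ) (es : List (ℕ × ℕ)) (k : ℕ) : List Bool :=
  unary' (2 + M + M * M) ++ (unary' 0 ++ (unary' 1 ++ (unary' (es.length - tri k) ++
    (unary' k ++ matrix M es))))

/-- The word computed by the reduction. -/
def redWord (C : CSP) : List Bool :=
  bif decide (tri C.length ≤ (edges (verts C)).length) then
    gword (verts C).length (edges (verts C)) C.length
  else []

theorem redB_iff {vs : List (ℕ × PA)} (a b : Fin (Gadget.NV vs.length)) :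
    (Gadget.redG (E vs)).Adj a b ↔ redB vs.length (edges vs) a.val b.val = true := by
  have hnb : ∀ (e : Fin vs.length × Fin vs.length) (b : Fin (Gadget.NV vs.length)),
      Gadget.Nb e b ↔ nbB (e.1.val, e.2.val) b.val = true := by
    intro e b
    simp only [Gadget.Nb, nbB, Gadget.v0, Gadget.vu, Fin.ext_iff, Bool.or_eq_true,
      decide_eq_true_eq]
  have hw : ∀ (e : Fin vs.length × Fin vs.length) (b : Fin (Gadget.NV vs.length)),
      b = Gadget.vw _ e ↔ b.val = wnum vs.length (e.1.val, e.2.val) := by
    intro e b
    simp only [Gadget.vw, wnum, Fin.ext_iff]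
  unfold redB
  simp only [List.any_eq_true, Bool.or_eq_true, Bool.and_eq_true, decide_eq_true_eq]
  constructor
  · rintro ⟨e, he, h⟩
    refine ⟨(e.1.val, e.2.val), ?_, ?_⟩
    · rw [mem_edges]
      simp only [E, Finset.mem_filter, Finset.mem_univ, true_and] at he
      exact ⟨e.1.isLt, e.2.isLt, he.1, he.2⟩
    · rw [hnb, hnb, hw, hw] at h
      exact h
  · rintro ⟨e, he, h⟩
    rw [mem_edges] at he
    refine ⟨(⟨e.1, he.1⟩, ⟨e.2, he.2.1⟩), ?_, ?_⟩
    · simp only [E, Finset.mem_filter, Finset.mem_univ, true_and]
      exact ⟨he.2.2.1, he.2.2.2⟩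
    · rw [hnb, hnb, hw, hw]
      exact h

theorem blueB_iff {M : ℕ} (a b : Fin (Gadget.NV M)) :
    (Gadget.blueG M).Adj a b ↔ blueB M a.val b.val = true := by
  unfold blueB
  simp only [List.any_eq_true, Bool.or_eq_true, Bool.and_eq_true, decide_eq_true_eq,
    List.mem_range]
  change (∃ u : Fin M, (a = Gadget.v1 M ∧ b = Gadget.vu M u) ∨
    (b = Gadget.v1 M ∧ a = Gadget.vu M u)) ↔ _
  simp only [Gadget.v1, Gadget.vu, Fin.ext_iff]
  constructor
  · rintro ⟨u, h⟩; exact ⟨u.val, u.isLt, h⟩
  · rintro ⟨u, hu, h⟩; exact ⟨⟨u, hu⟩, h⟩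

theorem finRange_flatMap {n : ℕ} (g : ℕ → List Bool) :
    (List.finRange n).flatMap (fun u => g u.val) = (List.range n).flatMap g := by
  have : List.range n = (List.finRange n).map Fin.val := by simp
  rw [this, List.flatMap_map]

theorem gword_eq (vs : List (ℕ × PA)) (k : ℕ) :
    gword vs.length (edges vs) k = (Gadget.inst (E vs) k).encode := by
  classical
  unfold gword RBInstance.encode matrix
  simp only [unary'_eq]
  have e1 : (Gadget.inst (E vs) k).r = (edges vs).length - tri k := by
    change (E vs).card - k * (k - 1) / 2 = _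
    rw [card_E, tri_eq]
  rw [e1]
  have e2 : ((List.finRange (Gadget.inst (E vs) k).n).flatMap fun u =>
      (List.finRange (Gadget.inst (E vs) k).n).flatMap fun v =>
      [decide ((Gadget.inst (E vs) k).red.Adj u v), decide ((Gadget.inst (E vs) k).blue.Adj u v)])
      = (List.range (2 + vs.length + vs.length * vs.length)).flatMap (fun a =>
        (List.range (2 + vs.length + vs.length * vs.length)).flatMap (fun b =>
        [redB vs.length (edges vs) a b, blueB vs.length a b])) := by
    rw [← finRange_flatMap]
    change ((List.finRange (2 + vs.length + vs.length * vs.length)).flatMap fun u => _) = _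
    congr 1
    funext u
    rw [← finRange_flatMap]
    change ((List.finRange (2 + vs.length + vs.length * vs.length)).flatMap fun v => _) = _
    congr 1
    funext v
    have h1 : decide ((Gadget.inst (E vs) k).red.Adj u v)
        = redB vs.length (edges vs) u.val v.val := by
      rw [Bool.eq_iff_iff, decide_eq_true_eq]
      exact redB_iff u v
    have h2 : decide ((Gadget.inst (E vs) k).blue.Adj u v) = blueB vs.length u.val v.val := by
      rw [Bool.eq_iff_iff, decide_eq_true_eq]
      exact blueB_iff u v
    rw [h1, h2]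
  rw [e2]
  rfl

theorem redWord_iff (C : CSP) (hC : 2 ≤ C.length) : C.Sat ↔ redWord C ∈ RedBlueCut := by
  rw [sat_iff C hC]
  unfold redWord
  by_cases h : tri C.length ≤ (edges (verts C)).length
  · rw [decide_eq_true h, cond_true, gword_eq, encode_mem_iff]
    rw [Gadget.hasCut_iff]
    · intro e he
      simp only [E, Finset.mem_filter, Finset.mem_univ, true_and] at he
      exact he.1
    · exact hC
    · rw [card_E, ← tri_eq]; exact h
  · rw [decide_eq_false h, cond_false]
    constructor
    · rintro ⟨S, hSk, hS⟩
      exfalso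
      apply h
      rw [tri_eq, ← card_E, ← hSk]
      have h1 : (S ×ˢ S).filter (fun e => e.1 < e.2) ⊆ E (verts C) := by
        rintro ⟨u, v⟩ huv
        simp only [Finset.mem_filter, Finset.mem_product] at huv
        exact hS u huv.1.1 v huv.1.2 huv.2
      have h2 := Finset.card_le_card h1
      have h3 := Gadget.two_mul_card_lt S
      omega
    · intro h; exact absurd h nil_not_mem

/-! ### Polynomial time -/

section poly
open Pool.Agent.H83.Poly
variable {α : Type} [Enc α]

theorem verts_poly {C : α → CSP} (hC : Poly C) : Poly (fun a => verts (C a)) := by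
  unfold verts
  refine flatMap (range (length hC)) (map (headD [] (Tableau.drop_poly (hC.comp fst) snd)) ?_)
  exact (snd' fst).pair snd

theorem compat_poly {p q : α → PA} (hp : Poly p) (hq : Poly q) :
    Poly (fun a => compat (p a) (q a)) := by
  unfold compat
  refine all hp (all (hq.comp fst) ?_)
  have a1 := fst' (fst' (snd' (fst (α := α × ((ℕ × ℕ) × ℕ)) (β := (ℕ × ℕ) × ℕ))))
  have a2 := snd' (fst' (snd' (fst (α := α × ((ℕ × ℕ) × ℕ)) (β := (ℕ × ℕ) × ℕ))))
  have a3 := snd' (snd' (fst (α := α × ((ℕ × ℕ) × ℕ)) (β := (ℕ × ℕ) × ℕ)))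
  have b1 := fst' (fst' (snd (α := α × ((ℕ × ℕ) × ℕ)) (β := (ℕ × ℕ) × ℕ)))
  have b2 := snd' (fst' (snd (α := α × ((ℕ × ℕ) × ℕ)) (β := (ℕ × ℕ) × ℕ)))
  have b3 := snd' (snd (α := α × ((ℕ × ℕ) × ℕ)) (β := (ℕ × ℕ) × ℕ))
  exact or (not (and (natEq a1 b1) (natEq a2 b2))) (natEq a3 b3)

theorem adj_poly {u v : α → ℕ × PA} (hu : Poly u) (hv : Poly v) :
    Poly (fun a => adj (u a) (v a)) := by
  unfold adj
  exact and (not (natEq (fst' hu) (fst' hv))) (and (compat_poly (snd' hu) (snd' hv))
    (and (compat_poly (snd' hu) (snd' hu)) (compat_poly (snd' hv) (snd' hv))))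

theorem nth_poly {vs : α → List (ℕ × PA)} {i : α → ℕ} (hvs : Poly vs) (hi : Poly i) :
    Poly (fun a => nth (vs a) (i a)) := headD _ (Tableau.drop_poly hvs hi)

theorem edges_poly {vs : α → List (ℕ × PA)} (hvs : Poly vs) : Poly (fun a => edges (vs a)) := by
  unfold edges
  refine flatMap (range (length hvs)) (map (filter (range (length (hvs.comp fst))) ?_) ?_)
  · refine and (natLt (snd' fst) snd) (adj_poly (nth_poly (hvs.comp (fst' fst)) (snd' fst))
      (nth_poly (hvs.comp (fst' fst)) snd))
  · exact (snd' fst).pair snd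

theorem tri_poly {k : α → ℕ} (hk : Poly k) : Poly (fun a => tri (k a)) := by
  unfold tri
  exact length (flatMap (range hk) (range snd))

theorem wnum_poly {M : α → ℕ} {e : α → ℕ × ℕ} (hM : Poly M) (he : Poly e) :
    Poly (fun a => wnum (M a) (e a)) := by
  unfold wnum
  exact add (add (const 2) hM) (add (mul (fst' he) hM) (snd' he))

theorem nbB_poly {e : α → ℕ × ℕ} {b : α → ℕ} (he : Poly e) (hb : Poly b) :
    Poly (fun a => nbB (e a) (b a)) := by
  unfold nbB
  exact or (natEq hb (const 0)) (or (natEq hb (add (const 2) (fst' he)))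
    (natEq hb (add (const 2) (snd' he))))

theorem redB_poly {M : α → ℕ} {es : α → List (ℕ × ℕ)} {b c : α → ℕ} (hM : Poly M) (hes : Poly es)
    (hb : Poly b) (hc : Poly c) : Poly (fun a => redB (M a) (es a) (b a) (c a)) := by
  unfold redB
  refine any hes ?_
  have hM' := hM.comp (fst (α := α) (β := ℕ × ℕ))
  have hb' := hb.comp (fst (α := α) (β := ℕ × ℕ))
  have hc' := hc.comp (fst (α := α) (β := ℕ × ℕ))
  exact or (and (natEq hb' (wnum_poly hM' snd)) (nbB_poly snd hc'))
    (and (natEq hc' (wnum_poly hM' snd)) (nbB_poly snd hb'))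

theorem blueB_poly {M b c : α → ℕ} (hM : Poly M) (hb : Poly b) (hc : Poly c) :
    Poly (fun a => blueB (M a) (b a) (c a)) := by
  unfold blueB
  refine any (range hM) ?_
  have hb' := hb.comp (fst (α := α) (β := ℕ))
  have hc' := hc.comp (fst (α := α) (β := ℕ))
  exact or (and (natEq hb' (const 1)) (natEq hc' (add (const 2) snd)))
    (and (natEq hc' (const 1)) (natEq hb' (add (const 2) snd)))

theorem matrix_poly {M : α → ℕ} {es : α → List (ℕ × ℕ)} (hM : Poly M) (hes : Poly es) :
    Poly (fun a => matrix (M a) (es a)) := by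
  unfold matrix
  have hn : Poly (fun a => 2 + M a + M a * M a) := add (add (const 2) hM) (mul hM hM)
  refine flatMap (range hn) (flatMap (range (hn.comp fst)) ?_)
  have hM' := hM.comp (fst' (fst (α := α × ℕ) (β := ℕ)))
  have hes' := hes.comp (fst' (fst (α := α × ℕ) (β := ℕ)))
  exact cons (redB_poly hM' hes' (snd' fst) snd) (cons (blueB_poly hM' (snd' fst) snd) (const []))

theorem unary_poly {k : α → ℕ} (hk : Poly k) : Poly (fun a => unary' (k a)) := by
  unfold unary'
  exact append (map (range hk) (const true)) (const [false])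

theorem gword_poly {M : α → ℕ} {es : α → List (ℕ × ℕ)} {k : α → ℕ} (hM : Poly M) (hes : Poly es)
    (hk : Poly k) : Poly (fun a => gword (M a) (es a) (k a)) := by
  unfold gword
  have hn : Poly (fun a => 2 + M a + M a * M a) := add (add (const 2) hM) (mul hM hM)
  exact append (unary_poly hn) (append (unary_poly (const 0)) (append (unary_poly (const 1))
    (append (unary_poly (sub (length hes) (tri_poly hk))) (append (unary_poly hk)
      (matrix_poly hM hes)))))

theorem redWord_poly {C : α → CSP} (hC : Poly C) : Poly (fun a => redWord (C a)) := by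
  unfold redWord
  have hv := verts_poly hC
  have he := edges_poly hv
  exact cond (natLe (tri_poly (length hC)) (length he)) (gword_poly (length hv) he (length hC))
    (const [])

end poly

end CSPRed

end Pool.Agent.H83
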