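import Mathlib

/-!
# Elementary steps of a TM2 machine, and their local description
-/

set_option autoImplicit false

namespace Pool.Agent.H83

open Turing TM2

namespace Micro

variable {K : Type} [DecidableEq K] {Γ : K → Type} {Λ σ : Type}

/-- Control part of a configuration: the statement that remains to be executed, the state. -/
abbrev Ctl (Γ : K → Type) (Λ σ : Type) : Type := Stmt Γ Λ σ × σ

/-- One level of all the stacks. -/
abbrev Cell (Γ : K → Type) : Type := ∀ k, Option (Γ k)

/-- Configurations between elementary steps. -/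
structure UCfg (Γ : K → Type) (Λ σ : Type) where
  /-- control -/
  ctl : Ctl Γ Λ σ
  /-- the stacks -/
  stk : ∀ k, List (Γ k)

/-- New control, given the control and the tops of the stacks. -/
def nextCtl (M : Λ → Stmt Γ Λ σ) : Ctl Γ Λ σ → Cell Γ → Ctl Γ Λ σ
  | (.push _ _ q, v), _ => (q, v)
  | (.peek k f q, v), a => (q, f v (a k))
  | (.pop k f q, v), a => (q, f v (a k))
  | (.load f q, v), _ => (q, f v)
  | (.branch f q₁ q₂, v), _ => (cond (f v) q₁ q₂, v)
  | (.goto f, v), _ => (M (f v), v)
  | (.halt, v), _ => (.halt, v)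

/-- New stacks. -/
def nextStk : Ctl Γ Λ σ → (∀ k, List (Γ k)) → (∀ k, List (Γ k))
  | (.push k f _, v), S => Function.update S k (f v :: S k)
  | (.pop k _ _, _), S => Function.update S k (S k).tail
  | _, S => S

/-- Level `i` of the stacks. -/
def cell (S : ∀ k, List (Γ k)) (i : ℕ) : Cell Γ := fun k => (S k)[i]?

/-- One elementary step. -/
def ustep (M : Λ → Stmt Γ Λ σ) (c : UCfg Γ Λ σ) : UCfg Γ Λ σ :=
  ⟨nextCtl M c.ctl (cell c.stk 0), nextStk c.ctl c.stk⟩

/-- New top level. -/
def next0 : Ctl Γ Λ σ → Cell Γ → Cell Γ → Cell Γ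
  | (.push k f _, v), a, _ => Function.update a k (some (f v))
  | (.pop k _ _, _), a, b => Function.update a k (b k)
  | _, a, _ => a

/-- New level `i + 1`, from the levels `i`, `i + 1`, `i + 2`. -/
def next1 : Ctl Γ Λ σ → Cell Γ → Cell Γ → Cell Γ → Cell Γ
  | (.push k _ _, _), l, a, _ => Function.update a k (l k)
  | (.pop k _ _, _), _, a, r => Function.update a k (r k)
  | _, _, a, _ => a

theorem cell_nextStk_zero (c : Ctl Γ Λ σ) (S : ∀ k, List (Γ k)) :
    cell (nextStk c S) 0 = next0 c (cell S 0) (cell S 1) := by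
  obtain ⟨q, v⟩ := c
  cases q with
  | push k f q =>
    funext k'
    by_cases h : k' = k
    · subst h; simp [cell, nextStk, next0]
    · simp [cell, nextStk, next0, Function.update_of_ne h]
  | pop k f q =>
    funext k'
    by_cases h : k' = k
    · subst h; simp [cell, nextStk, next0]
    · simp [cell, nextStk, next0, Function.update_of_ne h]
  | _ => rfl

theorem cell_nextStk_succ (c : Ctl Γ Λ σ) (S : ∀ k, List (Γ k)) (i : ℕ) :
    cell (nextStk c S) (i + 1) = next1 c (cell S i) (cell S (i + 1)) (cell S (i + 2)) := by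
  obtain ⟨q, v⟩ := c
  cases q with
  | push k f q =>
    funext k'
    by_cases h : k' = k
    · subst h; simp [cell, nextStk, next1]
    · simp [cell, nextStk, next1, Function.update_of_ne h]
  | pop k f q =>
    funext k'
    by_cases h : k' = k
    · subst h; simp [cell, nextStk, next1]
    · simp [cell, nextStk, next1, Function.update_of_ne h]
  | _ => rfl

/-- The micro configuration that corresponds to a configuration. -/
def conv (M : Λ → Stmt Γ Λ σ) (c : Cfg Γ Λ σ) : UCfg Γ Λ σ :=
  ⟨(match c.l with | some l => M l | none => .halt, c.var), c.stk⟩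

/-- Number of elementary steps of a statement. -/
def depth : Stmt Γ Λ σ → ℕ
  | .push _ _ q => depth q + 1
  | .peek _ _ q => depth q + 1
  | .pop _ _ q => depth q + 1
  | .load _ q => depth q + 1
  | .branch _ q₁ q₂ => max (depth q₁) (depth q₂) + 1
  | .goto _ => 1
  | .halt => 1

theorem ustep_stepAux (M : Λ → Stmt Γ Λ σ) (q : Stmt Γ Λ σ) : ∀ (v : σ) (S : ∀ k, List (Γ k)),
    ∃ n ≤ depth q, (ustep M)^[n] ⟨(q, v), S⟩ = conv M (stepAux q v S) := by
  induction q with
  | push k f q ih =>
    intro v S
    obtain ⟨n, hn, h⟩ := ih v (Function.update S k (f v :: S k))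
    refine ⟨n + 1, by simp only [depth]; omega, ?_⟩
    rw [Function.iterate_succ_apply]
    exact h
  | peek k f q ih =>
    intro v S
    obtain ⟨n, hn, h⟩ := ih (f v (S k).head?) S
    refine ⟨n + 1, by simp only [depth]; omega, ?_⟩
    rw [Function.iterate_succ_apply]
    have e : ustep M ⟨(.peek k f q, v), S⟩ = ⟨(q, f v (S k).head?), S⟩ := by
      simp [ustep, nextCtl, nextStk, cell, List.head?_eq_getElem?]
    rw [e]
    exact h
  | pop k f q ih =>
    intro v S
    obtain ⟨n, hn, h⟩ := ih (f v (S k).head?) (Function.update S k (S k).tail)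
    refine ⟨n + 1, by simp only [depth]; omega, ?_⟩
    rw [Function.iterate_succ_apply]
    have e : ustep M ⟨(.pop k f q, v), S⟩ =
        ⟨(q, f v (S k).head?), Function.update S k (S k).tail⟩ := by
      simp [ustep, nextCtl, nextStk, cell, List.head?_eq_getElem?]
    rw [e]
    exact h
  | load f q ih =>
    intro v S
    obtain ⟨n, hn, h⟩ := ih (f v) S
    refine ⟨n + 1, by simp only [depth]; omega, ?_⟩
    rw [Function.iterate_succ_apply]
    exact h
  | branch f q₁ q₂ ih₁ ih₂ =>
    intro v S
    cases hf : f v with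
    | true =>
      obtain ⟨n, hn, h⟩ := ih₁ v S
      refine ⟨n + 1, by simp only [depth]; omega, ?_⟩
      rw [Function.iterate_succ_apply]
      have e : ustep M ⟨(.branch f q₁ q₂, v), S⟩ = ⟨(q₁, v), S⟩ := by
        simp [ustep, nextCtl, nextStk, hf]
      rw [e, h]
      simp [stepAux, hf]
    | false =>
      obtain ⟨n, hn, h⟩ := ih₂ v S
      refine ⟨n + 1, by simp only [depth]; omega, ?_⟩
      rw [Function.iterate_succ_apply]
      have e : ustep M ⟨(.branch f q₁ q₂, v), S⟩ = ⟨(q₂, v), S⟩ := by
        simp [ustep, nextCtl, nextStk, hf]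
      rw [e, h]
      simp [stepAux, hf]
  | goto f =>
    intro v S
    exact ⟨1, le_rfl, rfl⟩
  | halt =>
    intro v S
    exact ⟨1, le_rfl, rfl⟩

theorem ustep_halt (M : Λ → Stmt Γ Λ σ) (v : σ) (S : ∀ k, List (Γ k)) (n : ℕ) :
    (ustep M)^[n] ⟨(.halt, v), S⟩ = ⟨(.halt, v), S⟩ := by
  induction n with
  | zero => rfl
  | succ n ih => rw [Function.iterate_succ_apply]; exact ih

theorem iterate_none {τ : Type} (f : τ → Option τ) (n : ℕ) :
    (flip bind f)^[n] (none : Option τ) = none := by
  induction n with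
  | zero => rfl
  | succ n ih => rw [Function.iterate_succ_apply]; exact ih

/-- Halting computations of the machine are followed by the elementary steps. -/
theorem ustep_of_halting (M : Λ → Stmt Γ Λ σ) (D : ℕ) (hD : ∀ l, depth (M l) ≤ D) (t : ℕ) :
    ∀ (c : Cfg Γ Λ σ) (v' : σ) (S' : ∀ k, List (Γ k)),
    (flip bind (step M))^[t] (some c) = some ⟨none, v', S'⟩ →
    ∃ n ≤ D * t, (ustep M)^[n] (conv M c) = ⟨(.halt, v'), S'⟩ := by
  induction t with
  | zero =>
    intro c v' S' h
    refine ⟨0, le_rfl, ?_⟩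
    have h' : some c = some (⟨none, v', S'⟩ : Cfg Γ Λ σ) := h
    rw [Option.some.injEq] at h'
    rw [h']
    rfl
  | succ t ih =>
    intro c v' S' h
    rw [Function.iterate_succ_apply] at h
    obtain ⟨l, v, S⟩ := c
    cases l with
    | none =>
      have e : (flip bind (step M)) (some (⟨none, v, S⟩ : Cfg Γ Λ σ)) = none := rfl
      rw [e, iterate_none] at h
      exact absurd h (by simp)
    | some l =>
      have e : (flip bind (step M)) (some (⟨some l, v, S⟩ : Cfg Γ Λ σ))
        = some (stepAux (M l) v S) := rfl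
      rw [e] at h
      obtain ⟨n, hn, hn'⟩ := ih _ _ _ h
      obtain ⟨m, hm, hm'⟩ := ustep_stepAux M (M l) v S
      refine ⟨n + m, ?_, ?_⟩
      · have := hD l
        rw [Nat.mul_succ]
        omega
      · have e2 : conv M (⟨some l, v, S⟩ : Cfg Γ Λ σ) = ⟨(M l, v), S⟩ := rfl
        rw [Function.iterate_add_apply, e2, hm', hn']

/-- The heights of the stacks grow by at most one. -/
theorem height_nextStk (c : Ctl Γ Λ σ) (S : ∀ k, List (Γ k)) (k : K) :
    (nextStk c S k).length ≤ (S k).length + 1 := by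
  obtain ⟨q, v⟩ := c
  cases q with
  | push k' f q =>
    by_cases h : k = k'
    · subst h; simp [nextStk]
    · simp [nextStk, Function.update_of_ne h]
  | pop k' f q =>
    by_cases h : k = k'
    · subst h; simp [nextStk]; omega
    · simp [nextStk, Function.update_of_ne h]
  | _ => simp [nextStk]

theorem height_iterate (M : Λ → Stmt Γ Λ σ) (c : UCfg Γ Λ σ) (k : K) (n : ℕ) :
    (((ustep M)^[n] c).stk k).length ≤ (c.stk k).length + n := by
  induction n with
  | zero => simp
  | succ n ih =>
    rw [Function.iterate_succ_apply']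
    have := height_nextStk ((ustep M)^[n] c).ctl ((ustep M)^[n] c).stk k
    change (nextStk _ _ k).length ≤ _
    omega

/-! ### Finitely many controls and cells -/

/-- The statements that can occur. -/
def StmtSet (M : Λ → Stmt Γ Λ σ) : Set (Stmt Γ Λ σ) :=
  {q | q = .halt ∨ ∃ l, q ∈ stmts₁ (M l)}

/-- The symbols that can occur on the stack `k`. -/
def SymSet (M : Λ → Stmt Γ Λ σ) (k₀ : K) (k : K) : Set (Γ k) :=
  {a | k = k₀ ∨ ∃ (v : σ) (f : σ → Γ k) (q : Stmt Γ Λ σ), .push k f q ∈ StmtSet M ∧ a = f v}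

/-- The controls that can occur. -/
def CtlSet (M : Λ → Stmt Γ Λ σ) : Set (Ctl Γ Λ σ) := {c | c.1 ∈ StmtSet M}

/-- The cells that can occur. -/
def CellSet (M : Λ → Stmt Γ Λ σ) (k₀ : K) : Set (Cell Γ) :=
  {g | ∀ k a, g k = some a → a ∈ SymSet M k₀ k}

omit [DecidableEq K] in
theorem stmtSet_finite [Finite Λ] (M : Λ → Stmt Γ Λ σ) : (StmtSet M).Finite := by
  have : StmtSet M = {.halt} ∪ ⋃ l, (↑(stmts₁ (M l)) : Set (Stmt Γ Λ σ)) := by
    ext q
    simp [StmtSet]
  rw [this]
  exact (Set.finite_singleton _).union (Set.finite_iUnion fun l => Finset.finite_toSet _)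

omit [DecidableEq K] in
theorem ctlSet_finite [Finite Λ] [Finite σ] (M : Λ → Stmt Γ Λ σ) : (CtlSet M).Finite := by
  refine ((stmtSet_finite M).prod (Set.finite_univ (α := σ))).subset ?_
  rintro ⟨q, v⟩ h
  exact ⟨h, trivial⟩

omit [DecidableEq K] in
theorem symSet_finite [Finite Λ] [Finite σ] (M : Λ → Stmt Γ Λ σ) (k₀ : K) [Finite (Γ k₀)] (k : K) :
    (SymSet M k₀ k).Finite := by
  classical
  by_cases hk : k = k₀
  · subst hk
    exact Set.toFinite _
  · refine (((stmtSet_finite M).prod (Set.finite_univ (α := σ))).image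
      (fun p : Stmt Γ Λ σ × σ => (match p.1 with
        | .push k' f _ => if h : k' = k then some (h ▸ f p.2) else none
        | _ => none : Option (Γ k)))).preimage (f := some) (Option.some_injective _).injOn |>.subset ?_
    rintro a (h | ⟨v, f, q, hq, rfl⟩)
    · exact absurd h hk
    · exact ⟨(.push k f q, v), ⟨hq, trivial⟩, by simp⟩

omit [DecidableEq K] in
theorem cellSet_finite [Finite K] [Finite Λ] [Finite σ] (M : Λ → Stmt Γ Λ σ) (k₀ : K)
    [Finite (Γ k₀)] : (CellSet M k₀).Finite := by
  have h : ∀ k, (insert none (some '' SymSet M k₀ k) : Set (Option (Γ k))).Finite := fun k =>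
    ((symSet_finite M k₀ k).image _).insert _
  refine (Set.Finite.pi' h).subset ?_
  intro g hg k
  cases hgk : g k with
  | none => exact Or.inl rfl
  | some a => exact Or.inr ⟨a, hg k a hgk, rfl⟩

omit [DecidableEq K] in
theorem stmts_trans' {M : Λ → Stmt Γ Λ σ} {q q' : Stmt Γ Λ σ} (h : q ∈ StmtSet M)
    (h' : q' ∈ stmts₁ q) : q' ∈ StmtSet M := by
  rcases h with rfl | ⟨l, hl⟩
  · simp [stmts₁] at h'
    exact Or.inl h'
  · exact Or.inr ⟨l, stmts₁_trans hl h'⟩

/-- A configuration all of whose parts are among the finitely many possible ones. -/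
def Good (M : Λ → Stmt Γ Λ σ) (k₀ : K) (c : UCfg Γ Λ σ) : Prop :=
  c.ctl ∈ CtlSet M ∧ ∀ i, cell c.stk i ∈ CellSet M k₀

theorem good_ustep {M : Λ → Stmt Γ Λ σ} {k₀ : K} {c : UCfg Γ Λ σ} (h : Good M k₀ c) :
    Good M k₀ (ustep M c) := by
  obtain ⟨⟨q, v⟩, S⟩ := c
  obtain ⟨h1, h2⟩ := h
  change q ∈ StmtSet M at h1
  constructor
  · change (nextCtl M (q, v) (cell S 0)).1 ∈ StmtSet M
    cases q with
    | push k f q =>
      refine stmts_trans' h1 (q' := q) ?_
      simp [stmts₁, stmts₁_self]
    | peek k f q =>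
      refine stmts_trans' h1 (q' := q) ?_
      simp [stmts₁, stmts₁_self]
    | pop k f q =>
      refine stmts_trans' h1 (q' := q) ?_
      simp [stmts₁, stmts₁_self]
    | load f q =>
      refine stmts_trans' h1 (q' := q) ?_
      simp [stmts₁, stmts₁_self]
    | branch f q₁ q₂ =>
      simp only [nextCtl]
      cases f v
      · exact stmts_trans' h1 (by simp [stmts₁, stmts₁_self])
      · exact stmts_trans' h1 (by simp [stmts₁, stmts₁_self])
    | goto f => exact Or.inr ⟨f v, stmts₁_self⟩
    | halt => exact Or.inl rfl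
  · have key : ∀ k a, a ∈ S k → a ∈ SymSet M k₀ k := by
      intro k a ha
      obtain ⟨i, hi⟩ := List.mem_iff_getElem?.1 ha
      exact h2 i k a hi
    intro i k a ha
    change (nextStk (q, v) S k)[i]? = some a at ha
    have ha' : a ∈ nextStk (q, v) S k := List.mem_iff_getElem?.2 ⟨i, ha⟩
    cases q with
    | push k' f q =>
      by_cases h : k = k'
      · subst h
        simp only [nextStk, Function.update_self, List.mem_cons] at ha'
        rcases ha' with rfl | ha'
        · exact Or.inr ⟨v, f, q, h1, rfl⟩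
        · exact key _ _ ha'
      · simp only [nextStk, Function.update_of_ne h] at ha'
        exact key _ _ ha'
    | pop k' f q =>
      by_cases h : k = k'
      · subst h
        simp only [nextStk, Function.update_self] at ha'
        exact key _ _ (List.mem_of_mem_tail ha')
      · simp only [nextStk, Function.update_of_ne h] at ha'
        exact key _ _ ha'
    | _ => exact key _ _ ha'

theorem good_iterate {M : Λ → Stmt Γ Λ σ} {k₀ : K} {c : UCfg Γ Λ σ} (h : Good M k₀ c) (n : ℕ) :
    Good M k₀ ((ustep M)^[n] c) := by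
  induction n with
  | zero => exact h
  | succ n ih => rw [Function.iterate_succ_apply']; exact good_ustep ih

end Micro

end Pool.Agent.H83
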