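import Pool.Agent.H83.NPDefs
import Pool.Agent.H83.Micro
import Pool.Agent.H83.Tableau

/-!
# The Cook-Levin theorem for Mathlib's TM2 machines
-/

set_option autoImplicit false

namespace Pool.Agent.H83

open Turing TM2 Micro Tableau

section core

variable {K : Type} [DecidableEq K] {Γ : K → Type} {Λ σ : Type}

theorem cell_update_nil (k₀ : K) (w : List (Γ k₀)) (i : ℕ) :
    cell (Function.update (fun _ => []) k₀ w) i =
      Function.update (fun _ => none) k₀ w[i]? := by
  funext k
  by_cases h : k = k₀
  · subst h; simp [cell]
  · simp [cell, Function.update_of_ne h]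

/-- The run of the local system given by a machine. -/
def runOf (M : Λ → Stmt Γ Λ σ) (c : UCfg Γ Λ σ) (t : ℕ) : Ctl Γ Λ σ × (ℕ → Cell Γ) :=
  (((ustep M)^[t] c).ctl, fun i => cell ((ustep M)^[t] c).stk i)

theorem isRun_runOf (M : Λ → Stmt Γ Λ σ) (k₀ : K) (c : UCfg Γ Λ σ) (hc : Good M k₀ c)
    (LQ : List (Ctl Γ Λ σ)) (LX : List (Cell Γ)) (hLQ : ∀ q, q ∈ CtlSet M → q ∈ LQ)
    (hLX : ∀ a, a ∈ CellSet M k₀ → a ∈ LX) :
    IsRun LQ LX (nextCtl M) next0 next1 (runOf M c) where
  hQ t := by
    simp only [runOf, Function.iterate_succ_apply']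
    rfl
  h0 t := by
    simp only [runOf, Function.iterate_succ_apply']
    exact cell_nextStk_zero _ _
  h1 t i := by
    simp only [runOf, Function.iterate_succ_apply']
    exact cell_nextStk_succ _ _ _
  mQ t := hLQ _ (good_iterate hc t).1
  mX t i := hLX _ ((good_iterate hc t).2 i)

theorem getElem?_pairWord_map {β : Type} (ein : Bool ⊕ Bool → β) (x y : List Bool) (i : ℕ) :
    ((pairWord (x, y)).map ein)[i]? = if i < x.length then
      some (ein (Sum.inl ((x.drop i).headD false))) else
      if i < x.length + y.length then some (ein (Sum.inr ((y.drop (i - x.length)).headD false)))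
      else none := by
  unfold pairWord
  have hd : ∀ (l : List Bool) (j : ℕ), j < l.length → l[j]? = some ((l.drop j).headD false) := by
    intro l j hj
    rw [List.getElem?_eq_getElem hj, List.drop_eq_getElem_cons hj]
    rfl
  simp only [List.map_append, List.map_map]
  by_cases h1 : i < x.length
  · rw [if_pos h1, List.getElem?_append_left (by simpa using h1), List.getElem?_map, hd x i h1]
    rfl
  · rw [if_neg h1, List.getElem?_append_right (by simpa using Nat.le_of_not_lt h1)]
    simp only [List.length_map, List.getElem?_map]
    by_cases h2 : i < x.length + y.length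
    · rw [if_pos h2, hd y (i - x.length) (by omega)]
      rfl
    · rw [if_neg h2, List.getElem?_eq_none (by omega)]
      rfl

theorem cook_levin_core [Finite K] [Finite Λ] [Finite σ] (M : Λ → Stmt Γ Λ σ) (k₀ k₁ : K)
    [Finite (Γ k₀)] (main : Λ) (v₀ : σ) (ein : Bool ⊕ Bool → Γ k₀)
    (hein : Function.Injective ein) (eout : Γ k₁) (time q : Polynomial ℕ)
    (V : List Bool × List Bool → Bool)
    (hV : ∀ p, ∃ t ≤ time.eval (pairWord p).length, ∃ (v' : σ) (S' : ∀ k, List (Γ k)),
      (flip bind (step M))^[t] (some ⟨some main, v₀,
        Function.update (fun _ => []) k₀ ((pairWord p).map ein)⟩) = some ⟨none, v', S'⟩ ∧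
      ((S' k₁)[0]? = some eout ↔ V p = true))
    (L : Set (List Bool))
    (hL : ∀ x, x ∈ L ↔ ∃ y : List Bool, y.length = q.eval x.length ∧ V (x, y) = true) :
    ∃ (W : Tableau.Data) (T N m : Polynomial ℕ), ∀ x : List Bool,
      x ∈ L ↔ (tab W (T.eval x.length) (N.eval x.length) (m.eval x.length) x).Sat := by
  classical
  -- bound on the depth
  obtain ⟨D, hD⟩ : ∃ D, ∀ l, depth (M l) ≤ D := by
    have : Fintype Λ := Fintype.ofFinite _
    exact ⟨∑ l, depth (M l), fun l => Finset.single_le_sum (f := fun l => depth (M l))
      (fun _ _ => Nat.zero_le _) (Finset.mem_univ l)⟩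
  set LQ : List (Ctl Γ Λ σ) := (ctlSet_finite M).toFinset.toList with hLQdef
  set LX : List (Cell Γ) := (cellSet_finite M k₀).toFinset.toList with hLXdef
  have hLQ : ∀ q, q ∈ LQ ↔ q ∈ CtlSet M := fun q => by simp [hLQdef]
  have hLX : ∀ a, a ∈ LX ↔ a ∈ CellSet M k₀ := fun a => by simp [hLXdef]
  set cc : Ctl Γ Λ σ → ℕ := fun q => LQ.idxOf q with hcc
  set cx : Cell Γ → ℕ := fun a => LX.idxOf a with hcx
  have hccinj : ∀ q ∈ LQ, ∀ q' ∈ LQ, cc q = cc q' → q = q' := fun q hq q' _ h =>
    (List.idxOf_inj hq).1 h
  have hcxinj : ∀ a ∈ LX, ∀ b ∈ LX, cx a = cx b → a = b := fun a ha b _ h =>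
    (List.idxOf_inj ha).1 h
  -- input cells
  set inC : Option (Γ k₀) → Cell Γ := fun o => Function.update (fun _ => none) k₀ o with hinC
  have hinCmem : ∀ o, inC o ∈ LX := by
    intro o
    rw [hLX]
    intro k a hk
    by_cases h : k = k₀
    · exact Or.inl h
    · simp [hinC, Function.update_of_ne h] at hk
  have hinCinj : ∀ o o', inC o = inC o' → o = o' := by
    intro o o' h
    have := congrFun h k₀
    simpa [hinC] using this
  have hblank : inC none = fun _ => none := by
    funext k
    by_cases h : k = k₀
    · subst h; simp [hinC]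
    · simp [hinC, Function.update_of_ne h]
  set acc : List (Cell Γ) := LX.filter (fun a => decide (a k₁ = some eout)) with hacc
  set W := mkData cc cx LQ LX (nextCtl M) next0 next1 (inC none) (M main, v₀)
    (inC (some (ein (Sum.inl false)))) (inC (some (ein (Sum.inl true))))
    (inC (some (ein (Sum.inr false)))) (inC (some (ein (Sum.inr true)))) acc with hW
  refine ⟨W, Polynomial.C D * time.comp (Polynomial.X + q),
    Polynomial.X + q + Polynomial.C D * time.comp (Polynomial.X + q), q, ?_⟩
  intro x
  set n := x.length with hn
  set m := q.eval n with hm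
  have eT : (Polynomial.C D * time.comp (Polynomial.X + q)).eval n = D * time.eval (n + m) := by
    simp [Polynomial.eval_comp, hm]
  have eN : (Polynomial.X + q + Polynomial.C D * time.comp (Polynomial.X + q)).eval n
      = n + m + D * time.eval (n + m) := by
    simp [Polynomial.eval_comp, hm]
  rw [eT, eN]
  set T := D * time.eval (n + m) with hT
  set N := n + m + T with hN
  -- facts about runs
  have hrun : ∀ y : List Bool, y.length = m → ∃ R : ℕ → Ctl Γ Λ σ × (ℕ → Cell Γ),
      IsRun LQ LX (nextCtl M) next0 next1 R ∧ (R 0).1 = (M main, v₀) ∧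
      (∀ i, (R 0).2 i = inC (((pairWord (x, y)).map ein)[i]?)) ∧
      (∀ t ≤ T, (R t).2 (N + 1) = inC none) ∧
      ((R T).2 0 ∈ acc ↔ V (x, y) = true) := by
    intro y hy
    obtain ⟨t, ht, v', S', hrun, hout⟩ := hV (x, y)
    set w := (pairWord (x, y)).map ein with hw
    have hwlen : w.length = n + m := by simp [hw, pairWord, hy, hn]
    set c0 : UCfg Γ Λ σ := ⟨(M main, v₀), Function.update (fun _ => []) k₀ w⟩ with hc0
    have hgood : Good M k₀ c0 := by
      refine ⟨Or.inr ⟨main, stmts₁_self⟩, fun i => ?_⟩
      rw [hc0, cell_update_nil]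
      exact (hLX _).1 (hinCmem _)
    refine ⟨runOf M c0, isRun_runOf M k₀ c0 hgood LQ LX (fun q hq => (hLQ q).2 hq)
      (fun a ha => (hLX a).2 ha), rfl, ?_, ?_, ?_⟩
    · intro i
      exact cell_update_nil k₀ w i
    · intro t ht
      rw [hblank]
      funext k
      change (((ustep M)^[t] c0).stk k)[N + 1]? = none
      have h1 := height_iterate M c0 k t
      have h2 : (c0.stk k).length ≤ n + m := by
        by_cases h : k = k₀
        · subst h; simp [hc0, hwlen]
        · simp [hc0, Function.update_of_ne h]
      exact List.getElem?_eq_none (by omega)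
    · obtain ⟨n', hn', hst⟩ := ustep_of_halting M D hD t _ v' S' hrun
      have hlen : (pairWord (x, y)).length = n + m := by simp [pairWord, hy, hn]
      rw [hlen] at ht
      have hn'T : n' ≤ T := hn'.trans (Nat.mul_le_mul_left D ht)
      have hfin : (ustep M)^[T] c0 = ⟨(.halt, v'), S'⟩ := by
        have : T = (T - n') + n' := by omega
        rw [this, Function.iterate_add_apply]
        have e : conv M ⟨some main, v₀, Function.update (fun _ => []) k₀ w⟩ = c0 := rfl
        rw [← e, hst, ustep_halt]
      have hcell : (runOf M c0 T).2 0 = cell S' 0 := by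
        simp only [runOf]
        rw [hfin]
      have hmem : (runOf M c0 T).2 0 ∈ LX := (hLX _).2 ((good_iterate hgood T).2 0)
      rw [hacc, List.mem_filter, decide_eq_true_eq]
      rw [hcell] at hmem ⊢
      constructor
      · rintro ⟨_, h⟩; exact hout.1 h
      · intro h; exact ⟨hmem, hout.2 h⟩
  rw [hL]
  constructor
  · -- completeness
    rintro ⟨y, hy, hVy⟩
    obtain ⟨R, hR, hR0, hRi, hRb, hRT⟩ := hrun y hy
    refine ⟨fun v : ℕ × ℕ => match v.2 with
        | 0 => cc (R v.1).1 | i + 1 => cx ((R v.1).2 i), ?_⟩
    intro c hc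
    unfold tab at hc
    rcases List.mem_cons.1 hc with rfl | hc
    · refine ⟨_, List.mem_singleton.2 rfl, fun a ha => ?_⟩
      rw [List.mem_singleton] at ha
      subst ha
      change cc (R 0).1 = cc (M main, v₀)
      rw [hR0]
    rcases List.mem_cons.1 hc with rfl | hc
    · refine ⟨_, List.mem_map.2 ⟨cx ((R T).2 0), List.mem_map.2 ⟨_, hRT.2 hVy, rfl⟩, rfl⟩,
        fun a ha => ?_⟩
      rw [List.mem_singleton] at ha
      subst ha
      rfl
    rcases List.mem_append.1 hc with hc | hc
    · obtain ⟨i, hi, rfl⟩ := List.mem_map.1 hc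
      have key : ∀ a : ℕ, cx ((R 0).2 i) = a → ∀ q ∈ [((0, i + 1), a)],
          (fun v : ℕ × ℕ => match v.2 with
          | 0 => cc (R v.1).1 | i + 1 => cx ((R v.1).2 i)) q.1 = q.2 := by
        intro a ha q hq
        rw [List.mem_singleton] at hq
        subst hq
        exact ha
      have hy' : y.length = m := hy
      rw [hRi, getElem?_pairWord_map, ← hn, hy'] at key
      unfold initC
      rw [← hn]
      by_cases h1 : i < n
      · simp only [h1, decide_true, cond_true, if_true] at key ⊢
        cases hx : (x.drop i).headD false with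
        | true =>
          rw [hx] at key
          exact ⟨_, List.mem_singleton.2 rfl, key _ rfl⟩
        | false =>
          rw [hx] at key
          exact ⟨_, List.mem_singleton.2 rfl, key _ rfl⟩
      · simp only [h1, decide_false, cond_false, if_false] at key ⊢
        by_cases h2 : i < n + m
        · simp only [h2, decide_true, cond_true, if_true] at key ⊢
          cases hx : (y.drop (i - n)).headD false with
          | true =>
            rw [hx] at key
            exact ⟨_, List.mem_cons_of_mem _ (List.mem_singleton.2 rfl), key _ rfl⟩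
          | false =>
            rw [hx] at key
            exact ⟨_, List.mem_cons_self, key _ rfl⟩
        · simp only [h2, decide_false, cond_false, if_false] at key ⊢
          exact ⟨_, List.mem_singleton.2 rfl, key _ rfl⟩
    · obtain ⟨t, ht, hc⟩ := List.mem_flatMap.1 hc
      exact complete hR T N hRb t (List.mem_range.1 ht) c hc
  · -- soundness
    rintro ⟨s, hs⟩
    set y : List Bool := (List.range m).map (fun j => decide (s (0, n + j + 1) = W.r1)) with hy
    have hylen : y.length = m := by simp [hy]
    obtain ⟨R, hR, hR0, hRi, hRb, hRT⟩ := hrun y hylen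
    refine ⟨y, hylen, ?_⟩
    rw [← hRT]
    have h00 : s (0, 0) = cc (R 0).1 := by
      obtain ⟨p, hp, hq⟩ := hs _ (List.mem_cons_self)
      rw [List.mem_singleton] at hp
      subst hp
      rw [hR0]
      exact hq ((0, 0), cc (M main, v₀)) (by simp [hW, mkData])
    have h0i : ∀ i ≤ N + 1, s (0, i + 1) = cx ((R 0).2 i) := by
      intro i hi
      obtain ⟨p, hp, hq⟩ := hs (initC W m x i) (by
        refine List.mem_cons_of_mem _ (List.mem_cons_of_mem _ (List.mem_append_left _
          (List.mem_map.2 ⟨i, List.mem_range.2 (by omega), rfl⟩))))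
      rw [hRi, getElem?_pairWord_map, ← hn, hylen]
      unfold initC at hp
      rw [← hn] at hp
      by_cases h1 : i < n
      · simp only [h1, decide_true, cond_true, if_true] at hp ⊢
        cases hx : (x.drop i).headD false with
        | true =>
          simp only [hx, cond_true, List.mem_singleton] at hp
          subst hp
          exact hq _ (List.mem_singleton.2 rfl)
        | false =>
          simp only [hx, cond_false, List.mem_singleton] at hp
          subst hp
          exact hq _ (List.mem_singleton.2 rfl)
      · simp only [h1, decide_false, cond_false, if_false] at hp ⊢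
        by_cases h2 : i < n + m
        · simp only [h2, decide_true, cond_true, if_true, List.mem_cons, List.not_mem_nil,
            or_false] at hp ⊢
          have hyi : (y.drop (i - n)).headD false = decide (s (0, i + 1) = W.r1) := by
            have hlt : i - n < y.length := by omega
            rw [List.drop_eq_getElem_cons hlt]
            simp only [hy, List.headD_cons, List.getElem_map, List.getElem_range]
            have : n + (i - n) + 1 = i + 1 := by omega
            rw [this]
          rw [hyi]
          rcases hp with rfl | rfl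
          · have e1 : s (0, i + 1) = W.r0 := hq ((0, i + 1), W.r0) (List.mem_singleton.2 rfl)
            have e2 : ¬ (s (0, i + 1) = W.r1) := by
              rw [e1]
              intro h
              have := hcxinj _ (hinCmem _) _ (hinCmem _) h
              have := hinCinj _ _ this
              simp only [Option.some.injEq] at this
              have := hein this
              simp at this
            rw [e1]
            rw [e1] at e2
            simp only [e2, decide_false]
            rfl
          · have e1 : s (0, i + 1) = W.r1 := hq ((0, i + 1), W.r1) (List.mem_singleton.2 rfl)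
            rw [e1]
            simp only [decide_true]
            rfl
        · simp only [h2, decide_false, cond_false, if_false, List.mem_singleton] at hp ⊢
          subst hp
          exact hq _ (List.mem_singleton.2 rfl)
    have hsnd := sound hR hccinj hcxinj T N hRb s (fun t ht c hc => hs c (by
      refine List.mem_cons_of_mem _ (List.mem_cons_of_mem _ (List.mem_append_right _
        (List.mem_flatMap.2 ⟨t, List.mem_range.2 ht, hc⟩))))) h00 h0i T le_rfl
    have hT1 := hsnd.2 0 (Nat.zero_le _)
    obtain ⟨p, hp, hq⟩ := hs _ (List.mem_cons_of_mem _ List.mem_cons_self)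
    obtain ⟨a, ha, rfl⟩ := List.mem_map.1 hp
    obtain ⟨a', ha', rfl⟩ := List.mem_map.1 ha
    have e := hq ((T, 1), cx a') (List.mem_singleton.2 rfl)
    have e2 : cx ((R T).2 0) = cx a' := by rw [← hT1]; exact e
    have e3 := hcxinj _ (hR.mX T 0) _ (List.mem_of_mem_filter ha') e2
    rw [e3]
    exact ha'

end core

/-- **Cook-Levin**: satisfiability of constraint problems is NP-hard, by explicit tableaux. -/
theorem cook_levin {L : Set (List Bool)} (hL : InNP L) :
    ∃ (W : Tableau.Data) (T N m : Polynomial ℕ), ∀ x : List Bool,
      x ∈ L ↔ (tab W (T.eval x.length) (N.eval x.length) (m.eval x.length) x).Sat := by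
  obtain ⟨q, V, ⟨h⟩, hx⟩ := hL
  have := h.tm.kFin
  have := h.tm.ΛFin
  have := h.tm.σFin
  have := h.tm.Γk₀Fin
  refine cook_levin_core h.tm.m h.tm.k₀ h.tm.k₁ h.tm.main h.tm.initialState
    h.inputAlphabet.invFun h.inputAlphabet.symm.injective (h.outputAlphabet.invFun true)
    h.time q V ?_ L hx
  intro p
  obtain ⟨⟨st, e⟩, hle⟩ := h.outputsFun p
  refine ⟨st, hle, h.tm.initialState, Function.update (fun _ => []) h.tm.k₁
      (List.map h.outputAlphabet.invFun (Computability.encodeBool (V p))), ?_, ?_⟩
  · have e1 : initList h.tm (List.map h.inputAlphabet.invFun (pairWord p)) =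
        (⟨some h.tm.main, h.tm.initialState, Function.update (fun _ => []) h.tm.k₀
          (List.map h.inputAlphabet.invFun (pairWord p))⟩ : TM2.Cfg h.tm.Γ h.tm.Λ h.tm.σ) :=
      congrArg (fun S => (⟨some h.tm.main, h.tm.initialState, S⟩ :
        TM2.Cfg h.tm.Γ h.tm.Λ h.tm.σ)) (by
        funext k
        by_cases hk : k = h.tm.k₀
        · subst hk; simp
        · simp [hk])
    have e2 : Option.map (haltList h.tm)
        (some (List.map h.outputAlphabet.invFun (Computability.encodeBool (V p)))) =
        some (⟨none, h.tm.initialState, Function.update (fun _ => []) h.tm.k₁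
          (List.map h.outputAlphabet.invFun (Computability.encodeBool (V p)))⟩ :
            TM2.Cfg h.tm.Γ h.tm.Λ h.tm.σ) :=
      congrArg (fun S => some (⟨none, h.tm.initialState, S⟩ :
        TM2.Cfg h.tm.Γ h.tm.Λ h.tm.σ)) (by
        funext k
        by_cases hk : k = h.tm.k₁
        · subst hk; simp
        · simp [hk])
    rw [e1, e2] at e
    exact e
  · simp only [Function.update_self, Computability.encodeBool]
    change (some (h.outputAlphabet.invFun (V p)) = some (h.outputAlphabet.invFun true)) ↔ _
    rw [Option.some.injEq]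
    exact ⟨fun hh => h.outputAlphabet.symm.injective hh, fun hh => by rw [hh]⟩

end Pool.Agent.H83
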