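import Mathlib

/-!
# The unweighted red-blue `s`-`t` cut problem
-/

set_option autoImplicit false

namespace Pool.Agent.H83

/-- The cut `δ(X)`: the edges of `G` with exactly one end in `X`. -/
def cutEdges {V : Type} (G : SimpleGraph V) (X : Set V) : Set (Sym2 V) :=
  {e | ∃ u v, u ∈ X ∧ v ∉ X ∧ G.Adj u v ∧ e = s(u, v)}

/-- An instance: a finite simple graph on the vertices `0, ..., n-1`, whose edges are coloured red or
blue (given as the graph `red` of its red edges and the graph `blue` of its blue edges, with no
edge in both), two distinct vertices `s` and `t`, and the two bounds `r` and `b`. -/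
structure RBInstance where
  /-- number of vertices -/
  n : ℕ
  /-- the red edges -/
  red : SimpleGraph (Fin n)
  /-- the blue edges -/
  blue : SimpleGraph (Fin n)
  disj : Disjoint red blue
  /-- source -/
  s : Fin n
  /-- sink -/
  t : Fin n
  hst : s ≠ t
  /-- bound on the number of red edges in the cut -/
  r : ℕ
  /-- bound on the number of blue edges in the cut -/
  b : ℕ

/-- Some `s`-`t` cut has at most `r` red edges and at most `b` blue edges. -/
def RBInstance.HasCut (I : RBInstance) : Prop :=
  ∃ X : Set (Fin I.n), I.s ∈ X ∧ I.t ∉ X ∧
    (cutEdges I.red X).ncard ≤ I.r ∧ (cutEdges I.blue X).ncard ≤ I.b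

/-- The number `k` written in unary: `k` ones followed by a zero. -/
def unary (k : ℕ) : List Bool := List.replicate k true ++ [false]

open Classical in
/-- The binary word that encodes an instance: the numbers `n`, `s`, `t`, `r`, `b` in unary, followed by
the adjacency matrix, which has two bits (is it a red edge?, is it a blue edge?) for each entry. -/
noncomputable def RBInstance.encode (I : RBInstance) : List Bool :=
  unary I.n ++ (unary I.s ++ (unary I.t ++ (unary I.r ++ (unary I.b ++
    (List.finRange I.n).flatMap (fun u => (List.finRange I.n).flatMap (fun v =>
      [decide (I.red.Adj u v), decide (I.blue.Adj u v)]))))))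

/-- The unweighted red-blue `s`-`t` cut problem in undirected graphs, as a language: the words that
encode an instance having a cut as required. -/
def RedBlueCut : Set (List Bool) := {w | ∃ I : RBInstance, I.encode = w ∧ I.HasCut}

end Pool.Agent.H83
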