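import Pool.Agent.H83.Verif
import Pool.Agent.H83.RBWord

/-!
# The red-blue cut problem is in NP
-/

set_option autoImplicit false

namespace Pool.Agent.H83

namespace RBMember

open CSPRed (unary' unary'_eq finRange_flatMap)

/-- Number of leading ones. -/
def lead (l : List Bool) : ℕ :=
  (l.foldl (fun (s : Bool × ℕ) x => (s.1 && x, bif s.1 && x then s.2 + 1 else s.2)) (true, 0)).2

/-- What follows the leading ones and a further letter. -/
def rest (l : List Bool) : List Bool := l.drop (lead l + 1)

/-- Letter at a position. -/
def bitAt (l : List Bool) (i : ℕ) : Bool := (l.drop i).headD false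

theorem lead_false (l : List Bool) (k : ℕ) :
    (l.foldl (fun (s : Bool × ℕ) x => (s.1 && x, bif s.1 && x then s.2 + 1 else s.2))
      (false, k)) = (false, k) := by
  induction l with
  | nil => rfl
  | cons x l ih => rw [List.foldl_cons]; exact ih

theorem lead_unary (k : ℕ) (l : List Bool) : lead (unary k ++ l) = k := by
  have key : ∀ (k j : ℕ), ((unary k ++ l).foldl
      (fun (s : Bool × ℕ) x => (s.1 && x, bif s.1 && x then s.2 + 1 else s.2)) (true, j)).2
      = j + k := by
    intro k
    induction k with
    | zero =>
      intro j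
      have : unary 0 ++ l = false :: l := rfl
      rw [this, List.foldl_cons]
      exact congrArg Prod.snd (lead_false l j)
    | succ k ih =>
      intro j
      have : unary (k + 1) ++ l = true :: (unary k ++ l) := rfl
      rw [this, List.foldl_cons]
      have h := ih (j + 1)
      simp only [Bool.and_self, cond_true]
      rw [h]
      omega
  unfold lead
  rw [key]
  omega

theorem rest_unary (k : ℕ) (l : List Bool) : rest (unary k ++ l) = l := by
  unfold rest
  rw [lead_unary]
  have : (unary k).length = k + 1 := by simp [unary]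
  rw [← this, List.drop_left]

/-- number of vertices -/
def nW (w : List Bool) : ℕ := lead w
/-- source -/
def sW (w : List Bool) : ℕ := lead (rest w)
/-- sink -/
def tW (w : List Bool) : ℕ := lead (rest (rest w))
/-- bound for red -/
def rW (w : List Bool) : ℕ := lead (rest (rest (rest w)))
/-- bound for blue -/
def bW (w : List Bool) : ℕ := lead (rest (rest (rest (rest w))))
/-- the matrix -/
def bits (w : List Bool) : List Bool := rest (rest (rest (rest (rest w))))
/-- red entry -/
def redW (w : List Bool) (a c : ℕ) : Bool := bitAt (bits w) (a * (nW w * 2) + (c * 2 + 0))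
/-- blue entry -/
def blueW (w : List Bool) (a c : ℕ) : Bool := bitAt (bits w) (a * (nW w * 2) + (c * 2 + 1))

/-- Equality of words. -/
def eqB (l m : List Bool) : Bool :=
  decide (l.length = m.length) && (List.range l.length).all (fun i => decide (bitAt l i = bitAt m i))

/-- The word encoded again. -/
def reenc (w : List Bool) : List Bool :=
  unary' (nW w) ++ (unary' (sW w) ++ (unary' (tW w) ++ (unary' (rW w) ++ (unary' (bW w) ++
    (List.range (nW w)).flatMap (fun a => (List.range (nW w)).flatMap (fun c =>
      [redW w a c, blueW w a c]))))))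

/-- The matrix describes a simple graph with coloured edges. -/
def symOK (w : List Bool) : Bool :=
  (List.range (nW w)).all (fun a => (!(redW w a a) && !(blueW w a a)) &&
    (List.range (nW w)).all (fun c => decide (redW w a c = redW w c a) &&
      (decide (blueW w a c = blueW w c a) && !(redW w a c && blueW w a c))))

/-- Number of red edges in the cut. -/
def cntR (w y : List Bool) : ℕ :=
  ((List.range (nW w)).flatMap (fun a => ((List.range (nW w)).filter (fun c =>
    bitAt y a && (!(bitAt y c) && redW w a c))).map (fun c => (a, c)))).length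

/-- Number of blue edges in the cut. -/
def cntB (w y : List Bool) : ℕ :=
  ((List.range (nW w)).flatMap (fun a => ((List.range (nW w)).filter (fun c =>
    bitAt y a && (!(bitAt y c) && blueW w a c))).map (fun c => (a, c)))).length

/-- The verifier. -/
def verify (p : List Bool × List Bool) : Bool :=
  (decide (sW p.1 < nW p.1) && (decide (tW p.1 < nW p.1) && !(decide (sW p.1 = tW p.1)))) &&
  (symOK p.1 && ((bitAt p.2 (sW p.1) && !(bitAt p.2 (tW p.1))) &&
  ((decide (cntR p.1 p.2 ≤ rW p.1) && decide (cntB p.1 p.2 ≤ bW p.1)) && eqB p.1 (reenc p.1))))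

/-! ### Polynomial time -/

section poly
open Pool.Agent.H83.Poly
variable {α : Type} [Enc α]

theorem lead_poly {l : α → List Bool} (hl : Poly l) : Poly (fun a => lead (l a)) := by
  have h : Poly (fun l : List Bool => l.foldl
      (fun (s : Bool × ℕ) x => (s.1 && x, bif s.1 && x then s.2 + 1 else s.2)) (true, 0)) := by
    refine foldl_add (f := fun (_ : List Bool) (s : Bool × ℕ) x =>
      (s.1 && x, bif s.1 && x then s.2 + 1 else s.2)) Poly.id (const _) ?_ (fun _ => 8)
      (PB.const 8) ?_
    · have s1 := fst' (fst' (snd (α := List Bool) (β := (Bool × ℕ) × Bool)))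
      have s2 := snd' (fst' (snd (α := List Bool) (β := (Bool × ℕ) × Bool)))
      have x := snd' (snd (α := List Bool) (β := (Bool × ℕ) × Bool))
      exact (and s1 x).pair (cond (and s1 x) (succ s2) s2)
    · rintro a ⟨f, k⟩ x _
      simp only [sz_pair]
      have h1 := sz_bool (f && x)
      cases f && x
      · simp only [cond_false]
        have := sz_pos f
        have := sz_bool false
        omega
      · simp only [cond_true, sz_nat]
        have := sz_pos f
        have := sz_bool true
        omega
  exact (snd' h).comp hl

theorem rest_poly {l : α → List Bool} (hl : Poly l) : Poly (fun a => rest (l a)) := by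
  unfold rest
  exact Tableau.drop_poly hl (succ (lead_poly hl))

theorem bitAt_poly {l : α → List Bool} {i : α → ℕ} (hl : Poly l) (hi : Poly i) :
    Poly (fun a => bitAt (l a) (i a)) := headD false (Tableau.drop_poly hl hi)

theorem nW_poly {w : α → List Bool} (hw : Poly w) : Poly (fun a => nW (w a)) := lead_poly hw
theorem sW_poly {w : α → List Bool} (hw : Poly w) : Poly (fun a => sW (w a)) :=
  lead_poly (rest_poly hw)
theorem tW_poly {w : α → List Bool} (hw : Poly w) : Poly (fun a => tW (w a)) :=
  lead_poly (rest_poly (rest_poly hw))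
theorem rW_poly {w : α → List Bool} (hw : Poly w) : Poly (fun a => rW (w a)) :=
  lead_poly (rest_poly (rest_poly (rest_poly hw)))
theorem bW_poly {w : α → List Bool} (hw : Poly w) : Poly (fun a => bW (w a)) :=
  lead_poly (rest_poly (rest_poly (rest_poly (rest_poly hw))))
theorem bits_poly {w : α → List Bool} (hw : Poly w) : Poly (fun a => bits (w a)) :=
  rest_poly (rest_poly (rest_poly (rest_poly (rest_poly hw))))

theorem redW_poly {w : α → List Bool} {b c : α → ℕ} (hw : Poly w) (hb : Poly b) (hc : Poly c) :
    Poly (fun a => redW (w a) (b a) (c a)) :=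
  bitAt_poly (bits_poly hw) (add (mul hb (mul (nW_poly hw) (const 2)))
    (add (mul hc (const 2)) (const 0)))

theorem blueW_poly {w : α → List Bool} {b c : α → ℕ} (hw : Poly w) (hb : Poly b) (hc : Poly c) :
    Poly (fun a => blueW (w a) (b a) (c a)) :=
  bitAt_poly (bits_poly hw) (add (mul hb (mul (nW_poly hw) (const 2)))
    (add (mul hc (const 2)) (const 1)))

theorem eqB_poly {l m : α → List Bool} (hl : Poly l) (hm : Poly m) :
    Poly (fun a => eqB (l a) (m a)) :=
  and (natEq (length hl) (length hm)) (all (range (length hl))
    (boolEq (bitAt_poly (hl.comp fst) snd) (bitAt_poly (hm.comp fst) snd)))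

theorem reenc_poly {w : α → List Bool} (hw : Poly w) : Poly (fun a => reenc (w a)) := by
  unfold reenc
  have w2 := hw.comp (fst' (fst (α := α × ℕ) (β := ℕ)))
  exact append (CSPRed.unary_poly (nW_poly hw)) (append (CSPRed.unary_poly (sW_poly hw))
    (append (CSPRed.unary_poly (tW_poly hw)) (append (CSPRed.unary_poly (rW_poly hw))
    (append (CSPRed.unary_poly (bW_poly hw)) (flatMap (range (nW_poly hw))
    (flatMap (range (nW_poly (hw.comp fst))) (cons (redW_poly w2 (snd' fst) snd)
      (cons (blueW_poly w2 (snd' fst) snd) (const [])))))))))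

theorem symOK_poly {w : α → List Bool} (hw : Poly w) : Poly (fun a => symOK (w a)) := by
  unfold symOK
  have w1 := hw.comp (fst (α := α) (β := ℕ))
  have w2 := hw.comp (fst' (fst (α := α × ℕ) (β := ℕ)))
  exact all (range (nW_poly hw)) (and (and (not (redW_poly w1 snd snd))
    (not (blueW_poly w1 snd snd))) (all (range (nW_poly w1)) (and
      (boolEq (redW_poly w2 (snd' fst) snd) (redW_poly w2 snd (snd' fst)))
      (and (boolEq (blueW_poly w2 (snd' fst) snd) (blueW_poly w2 snd (snd' fst)))
        (not (and (redW_poly w2 (snd' fst) snd) (blueW_poly w2 (snd' fst) snd)))))))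

theorem cntR_poly {w y : α → List Bool} (hw : Poly w) (hy : Poly y) :
    Poly (fun a => cntR (w a) (y a)) := by
  unfold cntR
  have w2 := hw.comp (fst' (fst (α := α × ℕ) (β := ℕ)))
  have y2 := hy.comp (fst' (fst (α := α × ℕ) (β := ℕ)))
  exact length (flatMap (range (nW_poly hw)) (map (filter (range (nW_poly (hw.comp fst)))
    (and (bitAt_poly y2 (snd' fst)) (and (not (bitAt_poly y2 snd)) (redW_poly w2 (snd' fst) snd))))
    ((snd' fst).pair snd)))

theorem cntB_poly {w y : α → List Bool} (hw : Poly w) (hy : Poly y) :
    Poly (fun a => cntB (w a) (y a)) := by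
  unfold cntB
  have w2 := hw.comp (fst' (fst (α := α × ℕ) (β := ℕ)))
  have y2 := hy.comp (fst' (fst (α := α × ℕ) (β := ℕ)))
  exact length (flatMap (range (nW_poly hw)) (map (filter (range (nW_poly (hw.comp fst)))
    (and (bitAt_poly y2 (snd' fst)) (and (not (bitAt_poly y2 snd)) (blueW_poly w2 (snd' fst) snd))))
    ((snd' fst).pair snd)))

theorem verify_poly : Poly verify := by
  unfold verify
  have hw : Poly (fun p : List Bool × List Bool => p.1) := fst
  have hy : Poly (fun p : List Bool × List Bool => p.2) := snd
  exact and (and (natLt (sW_poly hw) (nW_poly hw)) (and (natLt (tW_poly hw) (nW_poly hw))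
    (not (natEq (sW_poly hw) (tW_poly hw))))) (and (symOK_poly hw) (and
    (and (bitAt_poly hy (sW_poly hw)) (not (bitAt_poly hy (tW_poly hw))))
    (and (and (natLe (cntR_poly hw hy) (rW_poly hw)) (natLe (cntB_poly hw hy) (bW_poly hw)))
      (eqB_poly hw (reenc_poly hw)))))

end poly

/-! ### Correctness -/

theorem bitAt_eq (l : List Bool) (i : ℕ) : bitAt l i = l[i]?.getD false := by
  unfold bitAt
  by_cases h : i < l.length
  · rw [List.drop_eq_getElem_cons h, List.getElem?_eq_getElem h]
    rfl
  · rw [List.drop_eq_nil_of_le (by omega), List.getElem?_eq_none (by omega)]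
    rfl

theorem eqB_iff (l m : List Bool) : eqB l m = true ↔ l = m := by
  unfold eqB
  simp only [Bool.and_eq_true, decide_eq_true_eq, List.all_eq_true, List.mem_range, bitAt_eq]
  constructor
  · rintro ⟨h1, h2⟩
    apply List.ext_getElem? 
    intro i
    by_cases h : i < l.length
    · have := h2 i h
      rw [List.getElem?_eq_getElem h, List.getElem?_eq_getElem (h1 ▸ h)] at this ⊢
      simpa using this
    · rw [List.getElem?_eq_none (by omega), List.getElem?_eq_none (by omega)]
  · rintro rfl
    exact ⟨rfl, fun _ _ => rfl⟩

theorem getElem?_flatMap_const {ι : Type} (f : ι → List Bool) (c : ℕ) (hf : ∀ i, (f i).length = c)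
    (l : List ι) : ∀ (i : ℕ) (hi : i < l.length) (j : ℕ), j < c →
      (l.flatMap f)[i * c + j]? = (f l[i])[j]? := by
  induction l with
  | nil => intro i hi; simp at hi
  | cons x l ih =>
    intro i hi j hj
    rw [List.flatMap_cons]
    cases i with
    | zero =>
      rw [Nat.zero_mul, Nat.zero_add, List.getElem?_append_left (by rw [hf]; exact hj)]
      rfl
    | succ i =>
      rw [List.getElem?_append_right (by rw [hf, Nat.succ_mul]; omega)]
      have : (i + 1) * c + j - (f x).length = i * c + j := by rw [hf, Nat.succ_mul]; omega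
      rw [this, ih i (by simpa using hi) j hj]
      rfl

/-- Entries of a matrix written row by row. -/
theorem entry (n : ℕ) (g : Fin n → Fin n → List Bool) (hg : ∀ a c, (g a c).length = 2)
    (a c : Fin n) (j : ℕ) (hj : j < 2) :
    bitAt ((List.finRange n).flatMap (fun a => (List.finRange n).flatMap (fun c => g a c)))
      (a.val * (n * 2) + (c.val * 2 + j)) = ((g a c)[j]?).getD false := by
  rw [bitAt_eq]
  have hlen : ∀ a : Fin n, ((List.finRange n).flatMap (fun c => g a c)).length = n * 2 := by
    intro a
    rw [List.length_flatMap]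
    simp only [hg]
    simp
  rw [getElem?_flatMap_const _ (n * 2) hlen _ a.val (by simp) _ (by have := c.isLt; omega)]
  simp only [List.getElem_finRange, Fin.cast_mk, Fin.eta]
  rw [getElem?_flatMap_const _ 2 (hg _) _ c.val (by simp) _ hj]
  simp

theorem parse_encode (I : RBInstance) : nW I.encode = I.n ∧ sW I.encode = I.s.val ∧
    tW I.encode = I.t.val ∧ rW I.encode = I.r ∧ bW I.encode = I.b := by
  unfold nW sW tW rW bW RBInstance.encode
  simp only [lead_unary, rest_unary, and_self]

theorem redW_encode (I : RBInstance) (a c : Fin I.n) :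
    redW I.encode a.val c.val = true ↔ I.red.Adj a c := by
  classical
  unfold redW
  rw [(parse_encode I).1]
  have : bits I.encode = (List.finRange I.n).flatMap (fun u => (List.finRange I.n).flatMap
      (fun v => [decide (I.red.Adj u v), decide (I.blue.Adj u v)])) := by
    unfold bits RBInstance.encode
    simp only [rest_unary]
  rw [this, entry I.n (fun u v => [decide (I.red.Adj u v), decide (I.blue.Adj u v)])
    (fun _ _ => rfl) a c 0 (by omega)]
  simp

theorem blueW_encode (I : RBInstance) (a c : Fin I.n) :
    blueW I.encode a.val c.val = true ↔ I.blue.Adj a c := by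
  classical
  unfold blueW
  rw [(parse_encode I).1]
  have : bits I.encode = (List.finRange I.n).flatMap (fun u => (List.finRange I.n).flatMap
      (fun v => [decide (I.red.Adj u v), decide (I.blue.Adj u v)])) := by
    unfold bits RBInstance.encode
    simp only [rest_unary]
  rw [this, entry I.n (fun u v => [decide (I.red.Adj u v), decide (I.blue.Adj u v)])
    (fun _ _ => rfl) a c 1 (by omega)]
  simp

/-- Counting the edges of a cut. -/
theorem ncard_cut {n : ℕ} (G : SimpleGraph (Fin n)) (X : Set (Fin n)) (f : ℕ → ℕ → Bool)
    (y : ℕ → Bool) (hf : ∀ a c : Fin n, f a.val c.val = true ↔ G.Adj a c)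
    (hy : ∀ a : Fin n, y a.val = true ↔ a ∈ X) :
    ((List.range n).flatMap (fun a => ((List.range n).filter (fun c =>
      y a && (!(y c) && f a c))).map (fun c => (a, c)))).length = (cutEdges G X).ncard := by
  classical
  set l := (List.range n).flatMap (fun a => ((List.range n).filter (fun c =>
      y a && (!(y c) && f a c))).map (fun c => (a, c))) with hl
  have hnd : l.Nodup := by
    rw [hl, List.nodup_flatMap]
    constructor
    · intro u _
      exact ((List.nodup_range).filter _).map (fun a b h => by simpa using h)
    · refine List.Pairwise.imp ?_ (List.nodup_range (n := n))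
      intro a b hab
      simp only [Function.onFun, List.disjoint_left, List.mem_map, List.mem_filter]
      rintro e ⟨v, _, rfl⟩ ⟨w, _, h⟩
      exact hab (congrArg Prod.fst h).symm
  have hmem : ∀ e, e ∈ l ↔ e.1 < n ∧ e.2 < n ∧ y e.1 = true ∧ y e.2 = false ∧ f e.1 e.2 = true := by
    intro e
    rw [hl]
    simp only [List.mem_flatMap, List.mem_range, List.mem_map, List.mem_filter, Bool.and_eq_true,
      Bool.not_eq_true']
    constructor
    · rintro ⟨a, ha, c, ⟨hc, h1, h2, h3⟩, rfl⟩
      exact ⟨ha, hc, h1, h2, h3⟩
    · rintro ⟨h1, h2, h3, h4, h5⟩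
      exact ⟨e.1, h1, e.2, ⟨h2, h3, h4, h5⟩, rfl⟩
  rw [← List.toFinset_card_of_nodup hnd, ← Set.ncard_coe_finset]
  have hfin : ∀ e ∈ (l.toFinset : Set (ℕ × ℕ)), e.1 < n ∧ e.2 < n := by
    intro e he
    have := (hmem e).1 (by simpa using he)
    exact ⟨this.1, this.2.1⟩
  rcases Nat.eq_zero_or_pos n with rfl | hn
  · have h1 : (l.toFinset : Set (ℕ × ℕ)) = ∅ := by
      ext e
      simp only [Set.mem_empty_iff_false, iff_false]
      intro he
      have := (hfin e he).1
      omega
    have h2 : cutEdges G X = ∅ := by
      ext e
      simp only [Set.mem_empty_iff_false, iff_false]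
      rintro ⟨u, _⟩
      exact u.elim0
    rw [h1, h2]
    simp
  · refine Set.ncard_congr (fun e he => s(⟨e.1, (hfin e he).1⟩, ⟨e.2, (hfin e he).2⟩)) ?_ ?_ ?_
    · intro e he
      obtain ⟨h1, h2, h3, h4, h5⟩ := (hmem e).1 (by simpa using he)
      refine ⟨⟨e.1, h1⟩, ⟨e.2, h2⟩, (hy ⟨e.1, h1⟩).1 h3, ?_, (hf ⟨e.1, h1⟩ ⟨e.2, h2⟩).1 h5, rfl⟩
      intro hX
      have := (hy ⟨e.2, h2⟩).2 hX
      simp only at this
      rw [h4] at this
      exact absurd this (by simp)
    · intro e e' he he' h
      obtain ⟨h1, h2, h3, h4, h5⟩ := (hmem e).1 (by simpa using he)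
      obtain ⟨h1', h2', h3', h4', h5'⟩ := (hmem e').1 (by simpa using he')
      rw [Sym2.eq_iff] at h
      rcases h with ⟨ha, hb⟩ | ⟨ha, hb⟩
      · exact Prod.ext (congrArg Fin.val ha) (congrArg Fin.val hb)
      · have : e.1 = e'.2 := congrArg Fin.val ha
        rw [this, h4'] at h3
        exact absurd h3 (by simp)
    · rintro _ ⟨u, v, hu, hv, huv, rfl⟩
      refine ⟨(u.val, v.val), ?_, rfl⟩
      have : (u.val, v.val) ∈ l := by
        rw [hmem]
        refine ⟨u.isLt, v.isLt, (hy u).2 hu, ?_, (hf u v).2 huv⟩
        by_contra h
        exact hv ((hy v).1 (by simpa using h))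
      simpa using this

theorem mem_iff (w : List Bool) : w ∈ RedBlueCut ↔
    ∃ y : List Bool, y.length = (Polynomial.X : Polynomial ℕ).eval w.length ∧
      verify (w, y) = true := by
  classical
  rw [Polynomial.eval_X]
  constructor
  · rintro ⟨I, rfl, X, hs, ht, hr, hb⟩
    obtain ⟨p1, p2, p3, p4, p5⟩ := parse_encode I
    set w := I.encode with hw
    have hnlen : I.n ≤ w.length := by
      rw [hw]; unfold RBInstance.encode unary
      simp only [List.length_append, List.length_replicate]
      omega
    set y : List Bool := (List.range w.length).map (fun i => decide (∃ h : i < I.n, (⟨i, h⟩ : Fin I.n) ∈ X)) with hy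
    have hyb : ∀ a : Fin I.n, bitAt y a.val = true ↔ a ∈ X := by
      intro a
      have h1 : a.val < w.length := by have := a.isLt; omega
      rw [bitAt_eq, hy, List.getElem?_map, List.getElem?_range h1]
      simp only [Option.map_some, Option.getD_some, decide_eq_true_eq]
      constructor
      · rintro ⟨_, h⟩; exact h
      · intro h; exact ⟨a.isLt, h⟩
    refine ⟨y, by simp [hy], ?_⟩
    unfold verify
    simp only [Bool.and_eq_true, Bool.not_eq_true', decide_eq_true_eq, decide_eq_false_iff_not]
    rw [p1, p2, p3, p4, p5]
    refine ⟨⟨I.s.isLt, I.t.isLt, fun h => I.hst (Fin.ext h)⟩, ?_, ⟨?_, ?_⟩, ⟨?_, ?_⟩, ?_⟩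
    · unfold symOK
      rw [p1]
      simp only [List.all_eq_true, List.mem_range, Bool.and_eq_true, Bool.not_eq_true',
        decide_eq_true_eq]
      intro a ha
      have hf : ∀ (b : Bool) (P : Prop), (b = true ↔ P) → ¬P → b = false := by
        intro b P h hP
        by_contra hb
        exact hP (h.1 (by simpa using hb))
      refine ⟨⟨hf _ _ (redW_encode I ⟨a, ha⟩ ⟨a, ha⟩) (I.red.irrefl),
        hf _ _ (blueW_encode I ⟨a, ha⟩ ⟨a, ha⟩) (I.blue.irrefl)⟩, ?_⟩
      intro c hc
      refine ⟨?_, ?_, ?_⟩
      · rw [Bool.eq_iff_iff]
        rw [redW_encode I ⟨a, ha⟩ ⟨c, hc⟩, redW_encode I ⟨c, hc⟩ ⟨a, ha⟩]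
        exact I.red.adj_comm _ _
      · rw [Bool.eq_iff_iff]
        rw [blueW_encode I ⟨a, ha⟩ ⟨c, hc⟩, blueW_encode I ⟨c, hc⟩ ⟨a, ha⟩]
        exact I.blue.adj_comm _ _
      · rw [Bool.and_eq_false_iff]
        by_cases h : redW w a c = true
        · right
          refine hf _ _ (blueW_encode I ⟨a, ha⟩ ⟨c, hc⟩) ?_
          have := (redW_encode I ⟨a, ha⟩ ⟨c, hc⟩).1 h
          exact (SimpleGraph.disjoint_left.1 I.disj _ _ this)
        · left; simpa using h
    · exact (hyb I.s).2 hs
    · by_contra h
      exact ht ((hyb I.t).1 (by simpa using h))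
    · unfold cntR
      rw [p1, ncard_cut I.red X (redW w) (bitAt y) (redW_encode I) hyb]
      exact hr
    · unfold cntB
      rw [p1, ncard_cut I.blue X (blueW w) (bitAt y) (blueW_encode I) hyb]
      exact hb
    · rw [eqB_iff]
      unfold reenc
      rw [p1, p2, p3, p4, p5]
      simp only [unary'_eq]
      have e : (List.range I.n).flatMap (fun a => (List.range I.n).flatMap (fun c =>
          [redW w a c, blueW w a c])) = (List.finRange I.n).flatMap (fun u =>
          (List.finRange I.n).flatMap (fun v =>
            [decide (I.red.Adj u v), decide (I.blue.Adj u v)])) := by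
        rw [← finRange_flatMap]
        congr 1
        funext u
        rw [← finRange_flatMap]
        congr 1
        funext v
        have h1 : decide (I.red.Adj u v) = redW w u.val v.val := by
          rw [Bool.eq_iff_iff, decide_eq_true_eq]
          exact (redW_encode I u v).symm
        have h2 : decide (I.blue.Adj u v) = blueW w u.val v.val := by
          rw [Bool.eq_iff_iff, decide_eq_true_eq]
          exact (blueW_encode I u v).symm
        rw [h1, h2]
      rw [e, hw]
      rfl
  · rintro ⟨y, hylen, hv⟩
    unfold verify at hv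
    simp only [Bool.and_eq_true, Bool.not_eq_true', decide_eq_true_eq,
      decide_eq_false_iff_not] at hv
    obtain ⟨⟨h1, h2, h3⟩, h4, ⟨h5, h6⟩, ⟨h7, h8⟩, h9⟩ := hv
    rw [eqB_iff] at h9
    unfold symOK at h4
    simp only [List.all_eq_true, List.mem_range, Bool.and_eq_true, Bool.not_eq_true',
        decide_eq_true_eq, Bool.and_eq_false_iff] at h4
    set n := nW w with hn
    let red : SimpleGraph (Fin n) :=
      { Adj := fun a c => redW w a.val c.val = true
        symm := ⟨fun a c h => by rw [← ((h4 a.val a.isLt).2 c.val c.isLt).1]; exact h⟩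
        loopless := ⟨fun a h => by
          have := (h4 a.val a.isLt).1.1
          rw [this] at h; exact absurd h (by simp)⟩ }
    let blue : SimpleGraph (Fin n) :=
      { Adj := fun a c => blueW w a.val c.val = true
        symm := ⟨fun a c h => by rw [← ((h4 a.val a.isLt).2 c.val c.isLt).2.1]; exact h⟩
        loopless := ⟨fun a h => by
          have := (h4 a.val a.isLt).1.2
          rw [this] at h; exact absurd h (by simp)⟩ }
    let I : RBInstance :=
      { n := n
        red := red
        blue := blue
        disj := by
          rw [SimpleGraph.disjoint_left]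
          intro a c ha hc
          have ha' : redW w a.val c.val = true := ha
          have hc' : blueW w a.val c.val = true := hc
          rcases ((h4 a.val a.isLt).2 c.val c.isLt).2.2 with h | h
          · rw [h] at ha'; exact absurd ha' (by simp)
          · rw [h] at hc'; exact absurd hc' (by simp)
        s := ⟨sW w, h1⟩
        t := ⟨tW w, h2⟩
        hst := fun h => h3 (congrArg Fin.val h)
        r := rW w
        b := bW w }
    have hdec : ∀ b : Bool, @decide (b = true) (Classical.propDecidable _) = b := by
      intro b
      cases b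
      · exact @decide_eq_false _ (Classical.propDecidable _) (by simp)
      · exact @decide_eq_true _ (Classical.propDecidable _) rfl
    have e : (List.range n).flatMap (fun a => (List.range n).flatMap (fun c =>
        [redW w a c, blueW w a c])) = (List.finRange n).flatMap (fun u =>
        (List.finRange n).flatMap (fun v =>
          [@decide (redW w u.val v.val = true) (Classical.propDecidable _),
            @decide (blueW w u.val v.val = true) (Classical.propDecidable _)])) := by
      simp only [hdec]
      rw [← finRange_flatMap]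
      congr 1
      funext u
      rw [← finRange_flatMap]
    have hIenc : I.encode = w := by
      conv_rhs => rw [h9]
      unfold RBInstance.encode reenc
      simp only [unary'_eq]
      rw [← hn, e]
    refine ⟨I, hIenc, {a | bitAt y a.val = true}, h5, ?_, ?_, ?_⟩
    · intro h
      have h' : bitAt y (tW w) = true := h
      rw [h6] at h'
      exact absurd h' (by simp)
    · have := ncard_cut red {a | bitAt y a.val = true} (redW w) (bitAt y) (fun _ _ => Iff.rfl)
        (fun _ => Iff.rfl)
      change (cutEdges red _).ncard ≤ rW w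
      rw [← this]
      exact h7
    · have := ncard_cut blue {a | bitAt y a.val = true} (blueW w) (bitAt y) (fun _ _ => Iff.rfl)
        (fun _ => Iff.rfl)
      change (cutEdges blue _).ncard ≤ bW w
      rw [← this]
      exact h8

theorem inNP : InNP RedBlueCut := inNP_of_poly Polynomial.X verify verify_poly mem_iff

end RBMember

end Pool.Agent.H83
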